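import Mathlib

set_option autoImplicit false

open Set Topology Cardinal Filter

namespace Pool.Agent.Helper535.MN

universe u

/-- `μ` is a monotone normality operator (in the form of Borges). -/
structure MNOp (X : Type u) [TopologicalSpace X] (μ : X → Set X → Set X) : Prop where
  isOpen : ∀ x U, IsOpen U → x ∈ U → IsOpen (μ x U)
  mem : ∀ x U, IsOpen U → x ∈ U → x ∈ μ x U
  sub : ∀ x U, IsOpen U → x ∈ U → μ x U ⊆ U
  sep : ∀ x y U V, IsOpen U → IsOpen V → x ∈ U → y ∈ V → (μ x U ∩ μ y V).Nonempty →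
    x ∈ V ∨ y ∈ U

/-- countable tightness -/
def CTight (X : Type u) [TopologicalSpace X] : Prop :=
  ∀ B : Set X, ∀ x ∈ closure B, ∃ C ⊆ B, C.Countable ∧ x ∈ closure C

/-- `A` is the union of at most `κ` compact sets -/
def Cv {X : Type u} [TopologicalSpace X] (κ : Cardinal.{u}) (A : Set X) : Prop :=
  ∃ (ι : Type u) (C : ι → Set X), #ι ≤ κ ∧ (∀ i, IsCompact (C i)) ∧ (⋃ i, C i) = A

/-- `Q` is open and closed in the open set `Y` -/
def RC {X : Type u} [TopologicalSpace X] (Y Q : Set X) : Prop :=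
  IsOpen Q ∧ Q ⊆ Y ∧ closure Q ∩ Y ⊆ Q

/-- `Q` has a partition into open sigma-compact sets -/
def Part {X : Type u} [TopologicalSpace X] (Q : Set X) : Prop :=
  ∃ R : Set (Set X), (∀ P ∈ R, IsOpen P ∧ Cv ℵ₀ P) ∧ R.PairwiseDisjoint id ∧ ⋃₀ R = Q

/-- `δ` is closed under `G` -/
def FC {K : Type u} [LinearOrder K] (G : K → K) (δ : K) : Prop := ∀ ξ < δ, G ξ < δ

/-- stationary sets, in terms of closing-off functions -/
def Stat {K : Type u} [LinearOrder K] (S : Set K) : Prop := ∀ G : K → K, ∃ δ ∈ S, FC G δ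

/-- a countable exhaustion of the complement of `p` by open sets which are small for `𝒰`,
together with functions separating consecutive members -/
def KC {X : Type u} [TopologicalSpace X] (p : X) (𝒰 : Ultrafilter X) : Prop :=
  ∃ (U : ℕ → Set X) (g : ℕ → X → ℝ), (∀ n, IsOpen (U n)) ∧ (∀ n, U n ⊆ U (n + 1)) ∧
    (∀ n, p ∉ U n) ∧ (⋃ n, U n) = {p}ᶜ ∧ (∀ n, U n ∉ 𝒰) ∧
    (∀ n, ContinuousOn (g n) {p}ᶜ) ∧ (∀ n x, 0 ≤ g n x) ∧ (∀ n, ∀ x ∈ U n, g n x = 0) ∧
    ∀ n, ∀ x ∉ U (n + 1), g n x = 1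

end Pool.Agent.Helper535.MN
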