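import Pool.Agent.Helper535.MN.Defs

set_option autoImplicit false

open Set Topology Cardinal Filter

namespace Pool.Agent.Helper535.MN

universe u



theorem bisq {X : Type u} [TopologicalSpace X] [CompactSpace X] [T2Space X]
    (p : X) (𝒰 : Ultrafilter X) (hU : {p} ∉ 𝒰 → KC p 𝒰) :
    ∃ A : ℕ → Set X, Antitone A ∧ (∀ n, A n ∈ 𝒰) ∧ ∀ V ∈ 𝓝 p, ∃ n, A n ⊆ V := by
  classical
  by_cases h : {p} ∈ 𝒰
  · refine ⟨fun _ => {p}, fun _ _ _ => le_rfl, fun _ => h, fun V hV => ⟨0, ?_⟩⟩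
    exact Set.singleton_subset_iff.2 (mem_of_mem_nhds hV)
  · obtain ⟨U, g, hUo, hUm, hUp, hUu, hUn, -⟩ := hU h
    have hmono : Monotone U := monotone_nat_of_le_succ hUm
    refine ⟨fun n => (U n)ᶜ, fun a b hab => compl_subset_compl.2 (hmono hab),
      fun n => Ultrafilter.compl_mem_iff_notMem.2 (hUn n), fun V hV => ?_⟩
    obtain ⟨W, hWV, hWo, hpW⟩ := mem_nhds_iff.1 hV
    have hc : IsCompact Wᶜ := hWo.isClosed_compl.isCompact
    have hcov : Wᶜ ⊆ ⋃ n, U n := by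
      rw [hUu]
      intro x hx
      simp only [mem_compl_iff, mem_singleton_iff]
      rintro rfl
      exact hx hpW
    obtain ⟨n, hn⟩ := hc.elim_directed_cover U hUo hcov hmono.directed_le
    exact ⟨n, fun x hx => hWV (by_contra fun hxW => hx (hn hxW))⟩

end Pool.Agent.Helper535.MN
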