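import Pool.Agent.Helper535.MN.Defs

set_option autoImplicit false

open Set Topology Cardinal Filter

namespace Pool.Agent.Helper535.MN

universe u



theorem ctight_of_seq {X : Type u} [TopologicalSpace X] [SequentialSpace X] : CTight X := by
  intro B
  set E : Set X := {x | ∃ C ⊆ B, C.Countable ∧ x ∈ closure C} with hE
  have hseq : IsSeqClosed E := by
    intro u x hu hx
    choose C hCB hCc hCx using hu
    refine ⟨⋃ n, C n, Set.iUnion_subset hCB, Set.countable_iUnion hCc, ?_⟩
    have hmem : ∀ n, u n ∈ closure (⋃ n, C n) := fun n =>
      closure_mono (Set.subset_iUnion C n) (hCx n)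
    exact isClosed_closure.mem_of_tendsto hx (Filter.Eventually.of_forall hmem)
  have hcl : IsClosed E := hseq.isClosed
  have hBE : B ⊆ E := fun x hx => ⟨{x}, Set.singleton_subset_iff.2 hx, Set.countable_singleton x,
    subset_closure rfl⟩
  intro x hx
  exact closure_minimal hBE hcl hx

end Pool.Agent.Helper535.MN
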