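import Pool.Agent.Helper535.MN.Defs

set_option autoImplicit false

open Set Topology Cardinal Filter

namespace Pool.Agent.Helper535.MN

universe u



theorem keyA {X : Type u} [TopologicalSpace X] [CompactSpace X] [T2Space X]
    (p : X) (𝒰 : Ultrafilter X) (h𝒰 : (𝒰 : Filter X) ≤ 𝓝 p)
    (P : Set X) (hPo : IsOpen P) (hPc : Cv ℵ₀ P) (hP : P ∈ 𝒰) (hp : p ∉ P)
    (hcl : IsOpen ({p}ᶜ \ P)) : KC p 𝒰 := by
  classical
  obtain ⟨ι, C, hι, hC, hCU⟩ := hPc
  have hPne : P.Nonempty := by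
    by_contra h
    rw [Set.not_nonempty_iff_eq_empty] at h
    rw [h] at hP
    exact Ultrafilter.empty_notMem hP
  have hιne : Nonempty ι := by
    obtain ⟨x, hx⟩ := hPne
    rw [← hCU] at hx
    obtain ⟨i, _⟩ := Set.mem_iUnion.mp hx
    exact ⟨i⟩
  have hιc : Countable ι := Cardinal.mk_le_aleph0_iff.mp hι
  obtain ⟨e, he⟩ := exists_surjective_nat ι
  have hCP : ∀ i, C i ⊆ P := fun i => by rw [← hCU]; exact Set.subset_iUnion C i
  have step : ∀ (n : ℕ) (K : {K : Set X // IsCompact K ∧ K ⊆ P}),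
      ∃ L : {K : Set X // IsCompact K ∧ K ⊆ P}, K.1 ∪ C (e n) ⊆ interior L.1 := by
    intro n K
    obtain ⟨L, hL, hKL, hLP⟩ := exists_compact_between (K.2.1.union (hC (e n))) hPo
      (Set.union_subset K.2.2 (hCP _))
    exact ⟨⟨L, hL, hLP⟩, hKL⟩
  choose F hF using step
  let L : ℕ → {K : Set X // IsCompact K ∧ K ⊆ P} := fun n =>
    Nat.rec ⟨C (e 0), hC _, hCP _⟩ (fun n K => F (n + 1) K) n
  have hL0 : (L 0).1 = C (e 0) := rfl
  have hLs : ∀ n, L (n + 1) = F (n + 1) (L n) := fun n => rfl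
  have hLi : ∀ n, (L n).1 ∪ C (e (n + 1)) ⊆ interior (L (n + 1)).1 := by
    intro n
    rw [hLs]
    exact hF (n + 1) (L n)
  have hCL : ∀ n, C (e n) ⊆ (L n).1 := by
    intro n
    cases n with
    | zero => rw [hL0]
    | succ n => exact (Set.subset_union_right.trans (hLi n)).trans interior_subset
  let V : ℕ → Set X := fun n => interior (L (n + 1)).1
  have hVo : ∀ n, IsOpen (V n) := fun n => isOpen_interior
  have hLV : ∀ n, (L n).1 ⊆ V n := fun n => Set.subset_union_left.trans (hLi n)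
  have hVL : ∀ n, V n ⊆ (L (n + 1)).1 := fun n => interior_subset
  have hVP : ∀ n, V n ⊆ P := fun n => (hVL n).trans (L (n + 1)).2.2
  have hVV : ∀ n, V n ⊆ V (n + 1) := fun n => (hVL n).trans (hLV (n + 1))
  have hVU : ∀ x ∈ P, ∃ n, x ∈ V n := by
    intro x hx
    rw [← hCU] at hx
    obtain ⟨i, hi⟩ := Set.mem_iUnion.mp hx
    obtain ⟨n, rfl⟩ := he i
    exact ⟨n, hLV n (hCL n hi)⟩
  have hLc : ∀ n, IsClosed (L n).1 := fun n => (L n).2.1.isClosed
  have hdis : ∀ n, Disjoint (L (n + 1)).1 (V (n + 1))ᶜ := by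
    intro n
    rw [Set.disjoint_compl_right_iff_subset]
    exact hLV (n + 1)
  have hUr : ∀ n, ∃ f : C(X, ℝ), Set.EqOn f 0 (L (n + 1)).1 ∧ Set.EqOn f 1 (V (n + 1))ᶜ ∧
      ∀ x, f x ∈ Set.Icc (0 : ℝ) 1 := fun n =>
    exists_continuous_zero_one_of_isClosed (hLc (n + 1)) (hVo (n + 1)).isClosed_compl (hdis n)
  choose h h0 h1 h01 using hUr
  have hpV : ∀ n, p ∉ V n := fun n hn => hp (hVP n hn)
  refine ⟨fun n => V n ∪ ({p}ᶜ \ P), fun n x => if x ∈ P then h n x else if x = p then 1 else 0,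
    ?_, ?_, ?_, ?_, ?_, ?_, ?_, ?_, ?_⟩
  · intro n
    exact (hVo n).union hcl
  · intro n
    exact Set.union_subset_union_left _ (hVV n)
  · intro n hn
    rcases hn with hn | hn
    · exact hpV n hn
    · exact hn.1 rfl
  · ext x
    simp only [Set.mem_iUnion, Set.mem_compl_iff, Set.mem_singleton_iff]
    constructor
    · rintro ⟨n, hn | hn⟩
      · rintro rfl
        exact hpV n hn
      · exact hn.1
    · intro hx
      by_cases hxP : x ∈ P
      · obtain ⟨n, hn⟩ := hVU x hxP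
        exact ⟨n, Or.inl hn⟩
      · exact ⟨0, Or.inr ⟨hx, hxP⟩⟩
  · intro n hn
    rcases Ultrafilter.union_mem_iff.mp hn with hn | hn
    · have h2 : ((L (n + 1)).1)ᶜ ∈ 𝒰 := h𝒰 ((hLc (n + 1)).isOpen_compl.mem_nhds
        (fun hpL => hp ((L (n + 1)).2.2 hpL)))
      have h3 := Filter.inter_mem hn h2
      have h4 : V n ∩ ((L (n + 1)).1)ᶜ = ∅ := by
        ext x
        simp only [Set.mem_inter_iff, Set.mem_compl_iff, Set.mem_empty_iff_false, iff_false,
          not_and, not_not]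
        exact fun hx => hVL n hx
      rw [h4] at h3
      exact Ultrafilter.empty_notMem h3
    · have h3 := Filter.inter_mem hn hP
      have h4 : ({p}ᶜ \ P) ∩ P = ∅ := Set.sdiff_inter_self
      rw [h4] at h3
      exact Ultrafilter.empty_notMem h3
  · intro n x hx
    apply ContinuousAt.continuousWithinAt
    by_cases hxP : x ∈ P
    · have : (fun x => if x ∈ P then h n x else if x = p then 1 else 0) =ᶠ[𝓝 x] (h n : X → ℝ) := by
        filter_upwards [hPo.mem_nhds hxP] with y hy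
        rw [if_pos hy]
      exact (h n).continuous.continuousAt.congr this.symm
    · have : (fun x => if x ∈ P then h n x else if x = p then (1 : ℝ) else 0) =ᶠ[𝓝 x]
          (fun _ => (0 : ℝ)) := by
        filter_upwards [hcl.mem_nhds ⟨hx, hxP⟩] with y hy
        rw [if_neg hy.2, if_neg (fun hyp : y = p => hy.1 hyp)]
      exact continuousAt_const.congr this.symm
  · intro n x
    dsimp only
    split_ifs
    · exact (h01 n x).1
    · exact zero_le_one
    · exact le_refl _
  · intro n x hx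
    dsimp only
    rcases hx with hx | hx
    · rw [if_pos (hVP n hx)]
      exact h0 n (hVL n hx)
    · rw [if_neg hx.2, if_neg (fun hxp : x = p => hx.1 hxp)]
  · intro n x hx
    dsimp only
    rw [Set.mem_union, not_or] at hx
    by_cases hxP : x ∈ P
    · rw [if_pos hxP]
      exact h1 n hx.1
    · rw [if_neg hxP]
      by_cases hxp : x = p
      · rw [if_pos hxp]
      · exact absurd ⟨hxp, hxP⟩ hx.2

end Pool.Agent.Helper535.MN
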