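import Pool.Agent.Helper535.MN.Defs

set_option autoImplicit false

open Set Topology Cardinal Filter

namespace Pool.Agent.Helper535.MN

universe u



theorem keyB {X : Type u} [TopologicalSpace X] [T2Space X]
    (hnm : ∀ 𝒰 : Ultrafilter X, (∀ s : ℕ → Set X, (∀ n, s n ∈ 𝒰) → (⋂ n, s n) ∈ 𝒰) → ∃ x, 𝒰 = pure x)
    (p : X) (𝒰 : Ultrafilter X) (hne : {p} ∉ 𝒰)
    (R : Set (Set X)) (hRo : ∀ P ∈ R, IsOpen P) (hRd : R.PairwiseDisjoint id)
    (hRu : ⋃₀ R = {p}ᶜ) (hR : ∀ P ∈ R, P ∉ 𝒰) : KC p 𝒰 := by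
  classical
  have hex : ∀ y : X, y ≠ p → ∃ P ∈ R, y ∈ P := by
    intro y hy
    have : y ∈ ⋃₀ R := by rw [hRu]; exact hy
    exact this
  choose cell hcR hcm using hex
  have hcp : ∀ P ∈ R, p ∉ P := by
    intro P hP hp
    have : p ∈ ⋃₀ R := ⟨P, hP, hp⟩
    rw [hRu] at this
    exact this rfl
  have huniq : ∀ (y : X) (hy : y ≠ p) (P : Set X), P ∈ R → y ∈ P → cell y hy = P := by
    intro y hy P hP hyP
    by_contra hne'
    exact Set.disjoint_left.1 (hRd (hcR y hy) hP hne') (hcm y hy) hyP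
  let e : Set X → X := fun P => if h : P.Nonempty then h.choose else p
  have he : ∀ P : Set X, P.Nonempty → e P ∈ P := by
    intro P h
    simp only [e, dif_pos h]
    exact h.choose_spec
  let r : X → X := fun y => if h : y = p then p else e (cell y h)
  have hrp : r p = p := by simp [r]
  have hr : ∀ (y : X) (hy : y ≠ p), r y = e (cell y hy) := by
    intro y hy
    simp [r, hy]
  have hrm : ∀ (y : X) (hy : y ≠ p), r y ∈ cell y hy := by
    intro y hy
    rw [hr y hy]
    exact he _ ⟨y, hcm y hy⟩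
  have hrne : ∀ (y : X), y ≠ p → r y ≠ p := by
    intro y hy h
    have := hrm y hy
    rw [h] at this
    exact hcp _ (hcR y hy) this
  have hrc : ∀ (y z : X) (hy : y ≠ p) (hz : z ≠ p), z ∈ cell y hy → r z = r y := by
    intro y z hy hz h
    rw [hr y hy, hr z hz, huniq z hz _ (hcR y hy) h]
  -- the image ultrafilter is not principal
  have hV : ¬ ∃ x, Ultrafilter.map r 𝒰 = pure x := by
    rintro ⟨x, hx⟩
    have h1 : {x} ∈ Ultrafilter.map r 𝒰 := by rw [hx]; exact Ultrafilter.mem_pure.2 rfl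
    rw [Ultrafilter.mem_map] at h1
    by_cases hxp : x = p
    · subst hxp
      refine hne (Filter.mem_of_superset h1 ?_)
      intro y hy
      by_contra h
      exact hrne y h hy
    · refine hR _ (hcR x hxp) (Filter.mem_of_superset h1 ?_)
      intro y hy
      have hy' : r y = x := hy
      have hyp : y ≠ p := by
        rintro rfl
        rw [hrp] at hy'
        exact hxp hy'.symm
      have h2 := hrm y hyp
      rw [hy'] at h2
      rw [huniq x hxp _ (hcR y hyp) h2]
      exact hcm y hyp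
  have hV2 : ∃ s : ℕ → Set X, (∀ n, s n ∈ Ultrafilter.map r 𝒰) ∧
      (⋂ n, s n) ∉ Ultrafilter.map r 𝒰 := by
    by_contra hcon
    push Not at hcon
    exact hV (hnm _ hcon)
  obtain ⟨s, hs, hsI⟩ := hV2
  obtain ⟨I, hI⟩ : ∃ I, I = ⋂ n, s n := ⟨_, rfl⟩
  rw [← hI] at hsI
  have hIc : Iᶜ ∈ Ultrafilter.map r 𝒰 := Ultrafilter.compl_mem_iff_notMem.2 hsI
  let t : ℕ → Set X := fun n => (⋂ m ∈ Set.Iic n, s m) ∩ Iᶜ
  have ht : ∀ n, t n ∈ Ultrafilter.map r 𝒰 := by
    intro n
    refine Filter.inter_mem ?_ hIc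
    exact (Filter.biInter_mem (Set.finite_Iic n)).2 fun m _ => hs m
  have htmono : ∀ n, t (n + 1) ⊆ t n := by
    intro n x hx
    refine ⟨?_, hx.2⟩
    have h1 := hx.1
    rw [Set.mem_iInter₂] at h1 ⊢
    intro m hm
    exact h1 m (le_trans (show m ≤ n from hm) (Nat.le_succ n))
  have htempty : ∀ x, ∃ n, x ∉ t n := by
    intro x
    by_contra hcon
    push Not at hcon
    refine (hcon 0).2 ?_
    rw [hI, Set.mem_iInter]
    intro n
    have h1 := (hcon n).1
    rw [Set.mem_iInter₂] at h1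
    exact h1 n (Set.mem_Iic.2 le_rfl)
  let UU : ℕ → Set X := fun n => {y | y ≠ p ∧ r y ∉ t n}
  let WW : ℕ → Set X := fun n => {y | y ≠ p ∧ r y ∈ t n}
  have hUo : ∀ n, IsOpen (UU n) := by
    intro n
    rw [isOpen_iff_forall_mem_open]
    rintro y ⟨hy, hy2⟩
    refine ⟨cell y hy, ?_, hRo _ (hcR y hy), hcm y hy⟩
    intro z hz
    have hzp : z ≠ p := by rintro rfl; exact hcp _ (hcR y hy) hz
    refine ⟨hzp, ?_⟩
    rw [hrc y z hy hzp hz]
    exact hy2
  have hWo : ∀ n, IsOpen (WW n) := by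
    intro n
    rw [isOpen_iff_forall_mem_open]
    rintro y ⟨hy, hy2⟩
    refine ⟨cell y hy, ?_, hRo _ (hcR y hy), hcm y hy⟩
    intro z hz
    have hzp : z ≠ p := by rintro rfl; exact hcp _ (hcR y hy) hz
    refine ⟨hzp, ?_⟩
    rw [hrc y z hy hzp hz]
    exact hy2
  refine ⟨UU, fun n x => if x ∈ UU n then 0 else 1, hUo, ?_, ?_, ?_, ?_, ?_, ?_, ?_, ?_⟩
  · rintro n y ⟨hy, hy2⟩
    exact ⟨hy, fun h => hy2 (htmono n h)⟩
  · intro n h
    exact h.1 rfl
  · ext y
    constructor
    · intro h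
      obtain ⟨n, hn⟩ := Set.mem_iUnion.1 h
      exact hn.1
    · intro hy
      obtain ⟨n, hn⟩ := htempty (r y)
      exact Set.mem_iUnion.2 ⟨n, hy, hn⟩
  · intro n h
    have h1 := ht n
    rw [Ultrafilter.mem_map] at h1
    have h2 := Filter.inter_mem h h1
    have h3 : UU n ∩ r ⁻¹' (t n) = ∅ := by
      ext y
      simp only [Set.mem_inter_iff, Set.mem_preimage, Set.mem_empty_iff_false, iff_false, not_and]
      intro hy
      exact hy.2
    rw [h3] at h2
    exact Filter.empty_notMem _ h2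
  · intro n x hx
    refine ContinuousAt.continuousWithinAt ?_
    by_cases hxU : x ∈ UU n
    · refine ContinuousAt.congr (f := fun _ => (0 : ℝ)) continuousAt_const ?_
      filter_upwards [(hUo n).mem_nhds hxU] with y hy
      rw [if_pos hy]
    · have hxW : x ∈ WW n := by
        refine ⟨hx, ?_⟩
        by_contra h
        exact hxU ⟨hx, h⟩
      refine ContinuousAt.congr (f := fun _ => (1 : ℝ)) continuousAt_const ?_
      filter_upwards [(hWo n).mem_nhds hxW] with y hy
      rw [if_neg]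
      intro h
      exact h.2 hy.2
  · intro n x
    dsimp only
    split_ifs <;> norm_num
  · intro n x hx
    dsimp only
    rw [if_pos hx]
  · intro n x hx
    dsimp only
    rw [if_neg]
    rintro ⟨h1, h2⟩
    exact hx ⟨h1, fun h => h2 (htmono n h)⟩

end Pool.Agent.Helper535.MN
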