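import Pool.Agent.Helper535.MN.Defs
import Pool.Agent.Helper535.MN.P_keyA
import Pool.Agent.Helper535.MN.P_keyB

set_option autoImplicit false

open Set Topology Cardinal Filter

namespace Pool.Agent.Helper535.MN

universe u



theorem keyCover {X : Type u} [TopologicalSpace X] [CompactSpace X] [T2Space X]
    (hP : ∀ Y : Set X, IsOpen Y → Part Y)
    (hnm : ∀ 𝒰 : Ultrafilter X, (∀ s : ℕ → Set X, (∀ n, s n ∈ 𝒰) → (⋂ n, s n) ∈ 𝒰) → ∃ x, 𝒰 = pure x)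
    (p : X) (𝒰 : Ultrafilter X) (h𝒰 : (𝒰 : Filter X) ≤ 𝓝 p) (hne : {p} ∉ 𝒰) : KC p 𝒰 := by
  obtain ⟨R, hR1, hR2, hR3⟩ := hP {p}ᶜ isOpen_compl_singleton
  by_cases hex : ∃ P ∈ R, P ∈ 𝒰
  · obtain ⟨P, hPR, hPU⟩ := hex
    have hsub : ∀ Q ∈ R, Q ⊆ ({p}ᶜ : Set X) := by
      intro Q hQ
      rw [← hR3]
      exact subset_sUnion_of_mem hQ
    have hpP : p ∉ P := fun h => (hsub P hPR h) rfl
    refine keyA p 𝒰 h𝒰 P (hR1 P hPR).1 (hR1 P hPR).2 hPU hpP ?_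
    have heq : ({p}ᶜ : Set X) \ P = ⋃₀ (R \ {P}) := by
      ext x
      constructor
      · rintro ⟨hx1, hx2⟩
        rw [← hR3] at hx1
        obtain ⟨Q, hQ, hxQ⟩ := hx1
        refine ⟨Q, ⟨hQ, ?_⟩, hxQ⟩
        intro h
        have h' : Q = P := h
        rw [h'] at hxQ
        exact hx2 hxQ
      · rintro ⟨Q, ⟨hQ, hQP⟩, hxQ⟩
        refine ⟨hsub Q hQ hxQ, fun hxP => ?_⟩
        have hd := hR2 hQ hPR (fun h => hQP h)
        exact Set.disjoint_left.1 hd hxQ hxP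
    rw [heq]
    exact isOpen_sUnion fun Q hQ => (hR1 Q hQ.1).1
  · push Not at hex
    exact keyB hnm p 𝒰 hne R (fun P hPR => (hR1 P hPR).1) hR2 hR3 hex

end Pool.Agent.Helper535.MN
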