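import Pool.Agent.Helper535.MN.Defs

set_option autoImplicit false

open Set Topology Cardinal Filter

namespace Pool.Agent.Helper535.MN

universe u



/-- every subspace is paracompact -/
theorem para {X : Type u} [TopologicalSpace X] [CompactSpace X] [T2Space X]
    (hP : ∀ Y : Set X, IsOpen Y → Part Y) (S : Set X) : ParacompactSpace S := by
  refine ⟨?_⟩
  intro α s hso hsc
  have hU : ∀ a, ∃ U : Set X, IsOpen U ∧ (Subtype.val ⁻¹' U : Set S) = s a := fun a =>
    isOpen_induced_iff.1 (hso a)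
  choose U hUo hUs using hU
  obtain ⟨R, hR, hRd, hRu⟩ := hP (⋃ a, U a) (isOpen_iUnion hUo)
  have key : ∀ P : R, ∃ v : α → Set (P : Set X), (∀ a, IsOpen (v a)) ∧ (⋃ a, v a) = Set.univ ∧
      LocallyFinite v ∧ ∀ a, v a ⊆ Subtype.val ⁻¹' (U a) := by
    rintro ⟨P, hPR⟩
    obtain ⟨hPo, ι, C, hι, hC, hCu⟩ := hR P hPR
    have : Countable ι := Cardinal.mk_le_aleph0_iff.1 hι
    have hsig : IsSigmaCompact P := by
      rw [← hCu]
      exact isSigmaCompact_iUnion_of_isCompact _ hC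
    have : SigmaCompactSpace P := isSigmaCompact_iff_sigmaCompactSpace.1 hsig
    have : LocallyCompactSpace P := hPo.locallyCompactSpace
    refine precise_refinement (fun a => (Subtype.val ⁻¹' (U a) : Set P))
      (fun a => (hUo a).preimage continuous_subtype_val) ?_
    ext x
    simp only [mem_iUnion, mem_preimage, mem_univ, iff_true]
    have : (x : X) ∈ ⋃ a, U a := by
      rw [← hRu]
      exact ⟨P, hPR, x.2⟩
    simpa using this
  choose v hvo hvc hvl hvs using key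
  refine ⟨R × α, fun p => (Subtype.val ⁻¹' (Subtype.val '' (v p.1 p.2)) : Set S), ?_, ?_, ?_, ?_⟩
  · rintro ⟨P, a⟩
    exact ((hR P P.2).1.isOpenMap_subtype_val _ (hvo P a)).preimage continuous_subtype_val
  · ext x
    simp only [mem_iUnion, mem_univ, iff_true]
    have hx : (x : X) ∈ ⋃ a, U a := by
      have : x ∈ ⋃ a, s a := by rw [hsc]; trivial
      obtain ⟨a, ha⟩ := mem_iUnion.1 this
      rw [← hUs a] at ha
      exact mem_iUnion.2 ⟨a, ha⟩
    rw [← hRu] at hx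
    obtain ⟨P, hPR, hxP⟩ := hx
    have h1 : (⟨(x : X), hxP⟩ : (P : Set X)) ∈ ⋃ a, v ⟨P, hPR⟩ a := by
      rw [hvc]; trivial
    obtain ⟨a, ha⟩ := mem_iUnion.1 h1
    exact ⟨(⟨P, hPR⟩, a), ⟨⟨x, hxP⟩, ha, rfl⟩⟩
  · intro x
    have hx : (x : X) ∈ ⋃ a, U a := by
      have : x ∈ ⋃ a, s a := by rw [hsc]; trivial
      obtain ⟨a, ha⟩ := mem_iUnion.1 this
      rw [← hUs a] at ha
      exact mem_iUnion.2 ⟨a, ha⟩
    rw [← hRu] at hx
    obtain ⟨P, hPR, hxP⟩ := hx
    obtain ⟨N, hN, hNf⟩ := hvl ⟨P, hPR⟩ ⟨x, hxP⟩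
    refine ⟨Subtype.val ⁻¹' (Subtype.val '' N), ?_, ?_⟩
    · exact continuous_subtype_val.continuousAt.preimage_mem_nhds
        ((hR P hPR).1.isOpenMap_subtype_val.image_mem_nhds hN)
    · refine (hNf.image (fun a => ((⟨P, hPR⟩ : R), a))).subset ?_
      rintro ⟨P', a⟩ ⟨y, hy1, hy2⟩
      obtain ⟨z, hz, hzy⟩ := hy1
      obtain ⟨w, hw, hwy⟩ := hy2
      have hPP : (P' : Set X) = P := by
        by_contra hne
        have := hRd P'.2 hPR hne
        have h2 : Disjoint (P' : Set X) P := this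
        exact Set.disjoint_left.1 h2 (hzy ▸ z.2) (hwy ▸ w.2)
      have hPP' : P' = ⟨P, hPR⟩ := Subtype.ext hPP
      subst hPP'
      refine ⟨a, ⟨z, hz, ?_⟩, rfl⟩
      have : z = w := Subtype.ext (hzy.trans hwy.symm)
      rw [this]; exact hw
  · rintro ⟨P, a⟩
    refine ⟨a, ?_⟩
    rintro y ⟨z, hz, hzy⟩
    rw [← hUs a]
    have := hvs P a hz
    simp only [mem_preimage] at this ⊢
    rwa [← hzy]

end Pool.Agent.Helper535.MN
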