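import Pool.Agent.Helper535.MN.Defs

set_option autoImplicit false

open Set Topology Cardinal Filter

namespace Pool.Agent.Helper535.MN

universe u



theorem eval_isEmbedding833 {S : Type u} [TopologicalSpace S] [CompletelyRegularSpace S]
    [T0Space S] : IsEmbedding (fun (x : S) (f : C(S, ℝ)) => f x) := by
  have hcont : Continuous (fun (x : S) (f : C(S, ℝ)) => f x) :=
    continuous_pi fun f => f.continuous
  have hind : IsInducing (fun (x : S) (f : C(S, ℝ)) => f x) := by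
    rw [isInducing_iff_nhds]
    intro x
    refine le_antisymm hcont.continuousAt.tendsto.le_comap ?_
    intro U hU
    obtain ⟨V, hVU, hV, hxV⟩ := mem_nhds_iff.mp hU
    obtain ⟨f, hf, hfx, hfV⟩ := CompletelyRegularSpace.completely_regular x Vᶜ
      hV.isClosed_compl (fun h => h hxV)
    obtain ⟨g, hg⟩ : ∃ g : C(S, ℝ), ∀ y, g y = (f y : ℝ) :=
      ⟨⟨fun y => (f y : ℝ), continuous_subtype_val.comp hf⟩, fun _ => rfl⟩
    rw [mem_comap]
    refine ⟨{ξ | ξ g < 1}, ?_, ?_⟩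
    · have h1 : IsOpen {ξ : C(S, ℝ) → ℝ | ξ g < 1} :=
        isOpen_lt (continuous_apply g) continuous_const
      refine h1.mem_nhds ?_
      show g x < 1
      rw [hg, hfx]
      norm_num
    · intro y hy
      have hy' : g y < 1 := hy
      by_contra hyU
      have hyV : y ∈ Vᶜ := fun h => hyU (hVU h)
      have h2 := hfV hyV
      rw [hg, h2] at hy'
      norm_num at hy'
  exact hind.isEmbedding

/-- every subspace is realcompact -/
theorem realc {X : Type u} [TopologicalSpace X] [CompactSpace X] [T2Space X]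
    (h : ∀ (p : X) (𝒰 : Ultrafilter X), (𝒰 : Filter X) ≤ 𝓝 p → {p} ∉ 𝒰 →
      ∃ f : X → ℝ, ContinuousOn f {p}ᶜ ∧ ∀ r : ℝ, {x | r < f x} ∈ 𝒰) (S : Set X) :
    ∃ (ι : Type u) (e : S → (ι → ℝ)), IsClosedEmbedding e := by
  refine ⟨C(S, ℝ), fun x f => f x, ?_⟩
  have hemb : IsEmbedding (fun (x : S) (f : C(S, ℝ)) => f x) := eval_isEmbedding833
  refine ⟨hemb, ?_⟩
  rw [← closure_subset_iff_isClosed]
  intro ξ hξ
  obtain ⟨V, hV, hVξ⟩ := mem_closure_iff_ultrafilter.mp hξ
  obtain ⟨W, hW⟩ : ∃ W : Ultrafilter S, Tendsto (fun (x : S) (f : C(S, ℝ)) => f x) W (𝓝 ξ) := by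
    refine ⟨V.comap hemb.injective hV, ?_⟩
    have h1 : Tendsto (fun (x : S) (f : C(S, ℝ)) => f x)
        (Filter.comap (fun (x : S) (f : C(S, ℝ)) => f x) (V : Filter (C(S, ℝ) → ℝ))) V :=
      tendsto_comap
    exact h1.mono_right hVξ
  obtain ⟨p, hp⟩ : ∃ p : X, ((W.map Subtype.val : Ultrafilter X) : Filter X) ≤ 𝓝 p :=
    ⟨_, (W.map Subtype.val).le_nhds_lim⟩
  by_cases hpS : p ∈ S
  · refine ⟨⟨p, hpS⟩, ?_⟩
    have h2 : (W : Filter S) ≤ 𝓝 (⟨p, hpS⟩ : S) := by
      rw [nhds_subtype, ← map_le_iff_le_comap]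
      exact hp
    have h3 : Tendsto (fun (x : S) (f : C(S, ℝ)) => f x) W
        (𝓝 ((fun (x : S) (f : C(S, ℝ)) => f x) ⟨p, hpS⟩)) :=
      (hemb.continuous.tendsto _).mono_left h2
    exact tendsto_nhds_unique h3 hW
  · exfalso
    have hnot : {p} ∉ (W.map Subtype.val : Ultrafilter X) := by
      intro hmem
      have h4 : (Subtype.val ⁻¹' {p} : Set S) ∈ W := hmem
      have h5 : (Subtype.val ⁻¹' {p} : Set S) = ∅ := by
        ext s
        simp only [Set.mem_preimage, Set.mem_singleton_iff, Set.mem_empty_iff_false, iff_false]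
        rintro rfl
        exact hpS s.2
      rw [h5] at h4
      exact W.empty_notMem h4
    obtain ⟨f, hf, hfU⟩ := h p _ hp hnot
    have hne : ∀ s : S, (s : X) ∈ ({p}ᶜ : Set X) := by
      intro s hs
      rw [Set.mem_singleton_iff] at hs
      exact hpS (hs ▸ s.2)
    obtain ⟨g, hg⟩ : ∃ g : C(S, ℝ), ∀ y : S, g y = f y :=
      ⟨⟨fun s => f s, hf.comp_continuous continuous_subtype_val hne⟩, fun _ => rfl⟩
    have h6 : Tendsto (fun x : S => g x) W (𝓝 (ξ g)) := (tendsto_pi_nhds.mp hW) g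
    have h7 : ∀ᶠ x in (W : Filter S), g x < ξ g + 1 := h6.eventually_lt_const (by linarith)
    have h8 : ∀ᶠ x : S in (W : Filter S), ξ g + 1 < f (x : X) := hfU (ξ g + 1)
    obtain ⟨x, hx1, hx2⟩ := (h7.and h8).exists
    rw [hg] at hx1
    linarith

end Pool.Agent.Helper535.MN
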