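import Pool.Agent.Helper535.MN.Defs

set_option autoImplicit false

open Set Topology Cardinal Filter

namespace Pool.Agent.Helper535.MN

universe u



/-- a continuous function on the complement of `p` which is unbounded along `𝒰` -/
theorem unbounded {X : Type u} [TopologicalSpace X] [CompactSpace X] [T2Space X]
    (p : X) (𝒰 : Ultrafilter X) (hne : {p} ∉ 𝒰) (hU : KC p 𝒰) :
    ∃ f : X → ℝ, ContinuousOn f {p}ᶜ ∧ ∀ r : ℝ, {x | r < f x} ∈ 𝒰 := by
  obtain ⟨U, g, hUo, hUs, hpU, hUn, hU𝒰, hgc, hg0, hgz, hg1⟩ := hU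
  have hmono : Monotone U := monotone_nat_of_le_succ hUs
  have hex : ∀ x, x ≠ p → ∃ N, x ∈ U N := by
    intro x hx
    have : x ∈ (⋃ n, U n) := by rw [hUn]; exact hx
    exact mem_iUnion.1 this
  have hsum : ∀ N x, x ∈ U N → ∑' n, g n x = ∑ n ∈ Finset.range N, g n x := by
    intro N x hx
    refine tsum_eq_sum fun n hn => ?_
    exact hgz n x (hmono (by simpa using hn) hx)
  refine ⟨fun x => ∑' n, g n x, ?_, ?_⟩
  · intro x hx
    refine ContinuousAt.continuousWithinAt ?_
    obtain ⟨N, hN⟩ := hex x hx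
    have hopen : IsOpen ({p}ᶜ : Set X) := isOpen_compl_singleton
    have h1 : ContinuousAt (fun x => ∑ n ∈ Finset.range N, g n x) x :=
      tendsto_finsetSum _ fun n _ => ((hgc n).continuousAt (hopen.mem_nhds hx))
    refine h1.congr ?_
    filter_upwards [(hUo N).mem_nhds hN] with y hy
    exact (hsum N y hy).symm
  · intro r
    obtain ⟨m, hm⟩ := exists_nat_ge r
    have h1 : (U (m + 1))ᶜ ∈ 𝒰 := Ultrafilter.compl_mem_iff_notMem.2 (hU𝒰 (m + 1))
    have h2 : ({p} : Set X)ᶜ ∈ 𝒰 := Ultrafilter.compl_mem_iff_notMem.2 hne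
    refine Filter.mem_of_superset (Filter.inter_mem h1 h2) ?_
    rintro x ⟨hx1, hx2⟩
    obtain ⟨N, hN⟩ := hex x hx2
    have hmN : m + 1 ≤ N := by
      by_contra hlt
      exact hx1 (hmono (by omega) hN)
    show r < ∑' n, g n x
    rw [hsum N x hN]
    have h3 : ∑ n ∈ Finset.range (m + 1), g n x ≤ ∑ n ∈ Finset.range N, g n x :=
      Finset.sum_le_sum_of_subset_of_nonneg (Finset.range_mono hmN) fun n _ _ => hg0 n x
    have h4 : ∑ n ∈ Finset.range (m + 1), g n x = (m : ℝ) + 1 := by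
      rw [Finset.sum_congr rfl fun n hn => hg1 n x fun h => hx1
        (hmono (Nat.succ_le_succ (Nat.lt_succ_iff.1 (Finset.mem_range.1 hn))) h)]
      simp
    linarith

end Pool.Agent.Helper535.MN
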