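import Pool.Agent.Helper535.MN.P_partAll
import Pool.Agent.Helper535.MN.P_ctight_of_seq
import Pool.Agent.Helper535.MN.P_keyCover
import Pool.Agent.Helper535.MN.P_bisq
import Pool.Agent.Helper535.MN.P_unbounded
import Pool.Agent.Helper535.MN.P_realc
import Pool.Agent.Helper535.MN.P_para
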