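import Pool.Agent.Helper535.MN.Defs

set_option autoImplicit false

open Set Topology Cardinal Filter

namespace Pool.Agent.Helper535.MN

universe u

theorem bdd_lt {K : Type u} [LinearOrder K] {T : Set K} (hT : #T < Order.cof K) :
    ∃ b, ∀ k ∈ T, k < b := by
  rw [← not_isCofinal_iff]
  intro h
  exact absurd (Order.cof_le h) (not_le.2 hT)

end Pool.Agent.Helper535.MN
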