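import Pool.Agent.Helper535.MN.Defs

set_option autoImplicit false

open Set Topology Cardinal Filter

namespace Pool.Agent.Helper535.MN

universe u



theorem cv_iUnion {X : Type u} [TopologicalSpace X] {κ : Cardinal.{u}} (hκ : ℵ₀ ≤ κ)
    {ι : Type u} (hι : #ι ≤ κ) {A : ι → Set X} (hA : ∀ i, Cv κ (A i)) : Cv κ (⋃ i, A i) := by
  choose J C hJ hC hU using hA
  refine ⟨Σ i, J i, fun p => C p.1 p.2, ?_, fun p => hC p.1 p.2, ?_⟩
  · rw [Cardinal.mk_sigma]
    calc Cardinal.sum (fun i => #(J i)) ≤ Cardinal.sum (fun _ : ι => κ) :=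
          Cardinal.sum_le_sum _ _ hJ
      _ = #ι * κ := by rw [Cardinal.sum_const']
      _ ≤ κ * κ := mul_le_mul' hι le_rfl
      _ = κ := Cardinal.mul_eq_self hκ
  · rw [Set.iUnion_sigma]
    exact Set.iUnion_congr hU

end Pool.Agent.Helper535.MN
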