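import Pool.Agent.Helper535.MN.Defs

set_option autoImplicit false

open Set Topology Cardinal Filter

namespace Pool.Agent.Helper535.MN

universe u



theorem cv_union {X : Type u} [TopologicalSpace X] {κ : Cardinal.{u}} (hκ : ℵ₀ ≤ κ) {A B : Set X}
    (hA : Cv κ A) (hB : Cv κ B) : Cv κ (A ∪ B) := by
  obtain ⟨ι, C, hι, hC, rfl⟩ := hA
  obtain ⟨ι', C', hι', hC', rfl⟩ := hB
  refine ⟨ι ⊕ ι', Sum.elim C C', ?_, ?_, ?_⟩
  · have h1 : #(ι ⊕ ι') = #ι + #ι' := by simp
    rw [h1]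
    calc #ι + #ι' ≤ κ + κ := add_le_add hι hι'
      _ = κ := Cardinal.add_eq_self hκ
  · rintro (i | i)
    · exact hC i
    · exact hC' i
  · ext x
    simp only [mem_iUnion, mem_union, Sum.exists, Sum.elim_inl, Sum.elim_inr]

end Pool.Agent.Helper535.MN
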