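import Pool.Agent.Helper535.MN.Defs

set_option autoImplicit false

open Set Topology Cardinal Filter

namespace Pool.Agent.Helper535.MN

universe u



/-- an index set of regular order type `κ⁺` -/
theorem exReg (κ : Cardinal.{u}) (hκ : ℵ₀ ≤ κ) :
    ∃ (K : Type u) (_ : LinearOrder K), WellFoundedLT K ∧ #K = Order.succ κ ∧
      Order.cof K = Order.succ κ ∧ (∀ k : K, #(Iic k) ≤ κ) ∧ (∀ k : K, #(Iio k) ≤ κ) := by
  have hio : ∀ k : (Order.succ κ).ord.ToType, #(Iio k) ≤ κ := by
    intro k
    have h := Cardinal.mk_Iio_lt k (by simp)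
    rw [Cardinal.mk_ord_toType] at h
    exact Order.lt_succ_iff.mp h
  refine ⟨(Order.succ κ).ord.ToType, inferInstance, inferInstance, Cardinal.mk_ord_toType _, ?_, ?_, hio⟩
  · rw [Ordinal.cof_toType]
    exact (Cardinal.isRegular_succ hκ).cof_ord
  · intro k
    have h1 : (Iic k : Set (Order.succ κ).ord.ToType) = insert k (Iio k) := by
      ext x; simp [le_iff_eq_or_lt]
    rw [h1]
    refine (Cardinal.mk_insert_le).trans ?_
    exact (add_le_add (hio k) (le_refl 1)).trans
      (by rw [Cardinal.add_one_eq hκ])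

end Pool.Agent.Helper535.MN
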