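import Pool.Agent.Helper535.MN.Defs
import Pool.Agent.Helper535.MN.P_cv_iUnion

set_option autoImplicit false

open Set Topology Cardinal Filter

namespace Pool.Agent.Helper535.MN

universe u



theorem hull_aux {X : Type u} [TopologicalSpace X] [CompactSpace X] [T2Space X]
    {Y K : Set X} (hY : IsOpen Y) (hKY : K ⊆ Y) (hK : IsCompact K) :
    ∃ O, IsOpen O ∧ K ⊆ O ∧ O ⊆ Y ∧ Cv ℵ₀ O := by
  have step : ∀ S : {S : Set X // IsCompact S ∧ S ⊆ Y},
      ∃ L : {S : Set X // IsCompact S ∧ S ⊆ Y}, S.1 ⊆ interior L.1 := by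
    rintro ⟨S, hS, hSY⟩
    obtain ⟨L, hL, hSL, hLY⟩ := exists_compact_between hS hY hSY
    exact ⟨⟨L, hL, hLY⟩, hSL⟩
  choose nx hnx using step
  let sq : ℕ → {S : Set X // IsCompact S ∧ S ⊆ Y} := fun n => Nat.rec ⟨K, hK, hKY⟩ (fun _ p => nx p) n
  have hsq : ∀ n, (sq n).1 ⊆ interior (sq (n + 1)).1 := fun n => hnx (sq n)
  refine ⟨⋃ n, interior (sq (n + 1)).1, isOpen_iUnion fun n => isOpen_interior, ?_, ?_, ?_⟩
  · exact (hsq 0).trans (Set.subset_iUnion (fun n => interior (sq (n + 1)).1) 0)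
  · exact Set.iUnion_subset fun n => interior_subset.trans (sq (n + 1)).2.2
  · refine ⟨ULift.{u} ℕ, fun n => (sq n.down).1, ?_, fun n => (sq n.down).2.1, ?_⟩
    · simp
    · apply Set.Subset.antisymm
      · exact Set.iUnion_subset fun n =>
          (hsq n.down).trans (Set.subset_iUnion (fun n => interior (sq (n + 1)).1) n.down)
      · exact Set.iUnion_subset fun n => interior_subset.trans
          (Set.subset_iUnion (fun n : ULift.{u} ℕ => (sq n.down).1) ⟨n + 1⟩)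

theorem cv_mono' {X : Type u} [TopologicalSpace X] {κ κ' : Cardinal.{u}} (h : κ ≤ κ')
    {A : Set X} (hA : Cv κ A) : Cv κ' A := by
  obtain ⟨ι, C, h1, h2, h3⟩ := hA
  exact ⟨ι, C, h1.trans h, h2, h3⟩

theorem hull {X : Type u} [TopologicalSpace X] [CompactSpace X] [T2Space X]
    {κ : Cardinal.{u}} (hκ : ℵ₀ ≤ κ) {Y C : Set X} (hY : IsOpen Y) (hCY : C ⊆ Y) (hc : Cv κ C) :
    ∃ O, IsOpen O ∧ C ⊆ O ∧ O ⊆ Y ∧ Cv κ O := by
  obtain ⟨ι, D, h1, h2, h3⟩ := hc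
  have hD : ∀ i, ∃ O, IsOpen O ∧ D i ⊆ O ∧ O ⊆ Y ∧ Cv ℵ₀ O := fun i =>
    hull_aux hY ((Set.subset_iUnion D i).trans (h3.subset.trans hCY)) (h2 i)
  choose O hO hDO hOY hCO using hD
  refine ⟨⋃ i, O i, isOpen_iUnion hO, ?_, Set.iUnion_subset hOY,
    cv_iUnion hκ h1 fun i => cv_mono' hκ (hCO i)⟩
  rw [← h3]
  exact Set.iUnion_mono hDO

end Pool.Agent.Helper535.MN
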