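import Pool.Agent.Helper535.MN.Defs

set_option autoImplicit false

open Set Topology Cardinal Filter

namespace Pool.Agent.Helper535.MN

universe u



theorem finTrick {X : Type u} [TopologicalSpace X] {μ : X → Set X → Set X} (hμ : MNOp X μ)
    {O C : Set X} (hO : IsOpen O) (hC : IsCompact C) (hCO : C ⊆ O) :
    ∃ F : Set X, F.Finite ∧ F ⊆ C ∧ ∀ y ∉ O, ∀ W, IsOpen W → y ∈ W → Disjoint W F →
      Disjoint (μ y W) C := by
  obtain ⟨t, ht, hcov⟩ := hC.elim_nhds_subcover (fun z => μ z O)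
    (fun z hz => (hμ.isOpen z O hO (hCO hz)).mem_nhds (hμ.mem z O hO (hCO hz)))
  refine ⟨(t : Set X), t.finite_toSet, fun z hz => ht z hz, ?_⟩
  intro y hy W hW hyW hdis
  rw [Set.disjoint_left]
  intro k hk hkC
  have hk2 := hcov hkC
  simp only [Set.mem_iUnion] at hk2
  obtain ⟨z, hz, hkz⟩ := hk2
  rcases hμ.sep z y O W hO hW (hCO (ht z hz)) hyW ⟨k, hkz, hk⟩ with h | h
  · exact Set.disjoint_left.mp hdis h hz
  · exact hy h

end Pool.Agent.Helper535.MN
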