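import Pool.Agent.Helper535.MN.Defs
import Pool.Agent.Helper535.MN.P_finTrick

set_option autoImplicit false

open Set Topology Cardinal Filter

namespace Pool.Agent.Helper535.MN

universe u



theorem famTrick {X : Type u} [TopologicalSpace X] {μ : X → Set X → Set X} (hμ : MNOp X μ)
    {κ : Cardinal.{u}} (hκ : ℵ₀ ≤ κ) {O : Set X} (hO : IsOpen O) (hc : Cv κ O) :
    ∃ F : Set X, #F ≤ κ ∧ F ⊆ O ∧ ∀ y ∉ O, ∀ W, IsOpen W → y ∈ W → Disjoint W F →
      Disjoint (μ y W) O := by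
  obtain ⟨ι, C, hι, hC, hU⟩ := hc
  have hsub : ∀ i, C i ⊆ O := by
    intro i
    rw [← hU]
    exact Set.subset_iUnion C i
  choose F hFfin hFC hF using fun i => finTrick hμ hO (hC i) (hsub i)
  refine ⟨⋃ i, F i, ?_, ?_, ?_⟩
  · have h1 : #(⋃ i, F i) ≤ #ι * ⨆ i, #(F i) := Cardinal.mk_iUnion_le F
    refine h1.trans ?_
    have h2 : (⨆ i, #(F i)) ≤ κ := by
      apply ciSup_le'
      intro i
      exact ((Cardinal.lt_aleph0_iff_set_finite.mpr (hFfin i)).le).trans hκ
    calc #ι * ⨆ i, #(F i) ≤ κ * κ := mul_le_mul' hι h2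
      _ = κ := Cardinal.mul_eq_self hκ
  · exact Set.iUnion_subset fun i => (hFC i).trans (hsub i)
  · intro y hy W hW hyW hd
    rw [← hU, Set.disjoint_iUnion_right]
    intro i
    refine hF i y hy W hW hyW ?_
    exact hd.mono_right (Set.subset_iUnion F i)

end Pool.Agent.Helper535.MN
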