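import Pool.Agent.Helper535.MN.P_bdd_lt

set_option autoImplicit false

open Set Topology Cardinal Filter

namespace Pool.Agent.Helper535.MN

universe u

theorem fodor {K : Type u} [LinearOrder K] (hIic : ∀ k : K, #(Iic k) < Order.cof K)
    (hinf : ℵ₀ ≤ Order.cof K)
    {S : Set K} (h : K → K) (hh : ∀ δ ∈ S, h δ < δ) (hS : Stat S) :
    ∃ i, Stat {δ | δ ∈ S ∧ h δ = i} := by
  by_contra hcon
  push Not at hcon
  have h1 : ∀ i, ∃ G : K → K, ∀ δ ∈ S, h δ = i → ¬ FC G δ := by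
    intro i
    have := hcon i
    unfold Stat at this
    push Not at this
    obtain ⟨G, hG⟩ := this
    exact ⟨G, fun δ hδ hi => hG δ ⟨hδ, hi⟩⟩
  choose G hG using h1
  have h2 : ∀ ξ, ∃ b, ∀ k ∈ (fun p : K × K => G p.1 p.2) '' (Iic ξ ×ˢ Iic ξ), k < b := by
    intro ξ
    apply bdd_lt
    refine Cardinal.mk_image_le.trans_lt ?_
    rw [Cardinal.mk_setProd]
    exact Cardinal.mul_lt_of_lt hinf (hIic ξ) (hIic ξ)
  choose b hb using h2
  obtain ⟨δ, hδ, hFC⟩ := hS b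
  apply hG (h δ) δ hδ rfl
  intro ξ hξ
  have hm : max (h δ) ξ < δ := max_lt (hh δ hδ) hξ
  refine (hb (max (h δ) ξ) _ ?_).trans (hFC _ hm)
  exact ⟨(h δ, ξ), ⟨le_max_left _ _, le_max_right _ _⟩, rfl⟩

end Pool.Agent.Helper535.MN
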