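import Pool.Agent.Helper535.MN.Defs

set_option autoImplicit false

open Set Topology Cardinal Filter

namespace Pool.Agent.Helper535.MN

universe u



theorem lemZ {X : Type u} [TopologicalSpace X] [CompactSpace X] (hct : CTight X)
    {ι : Type u} [LinearOrder ι] [Nonempty ι]
    (hb : ∀ s : Set ι, s.Countable → ∃ b, ∀ a ∈ s, a < b)
    (y : ι → X) (W O : ι → Set X) (hO : ∀ i, IsOpen (O i)) (hWO : ∀ i, closure (W i) ⊆ O i)
    (hlater : ∀ i j, i < j → y j ∉ O i) (hin : ∀ i j, i < j → y i ∈ W j) : False := by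
  have hanti : ∀ a b : ι, a ≤ b → closure (y '' Ioi b) ⊆ closure (y '' Ioi a) := by
    intro a b hab
    exact closure_mono (image_mono (Ioi_subset_Ioi hab))
  have hne : (⋂ g : ι, closure (y '' Ioi g)).Nonempty := by
    apply IsCompact.nonempty_iInter_of_directed_nonempty_isCompact_isClosed
    · intro a b
      refine ⟨max a b, hanti _ _ (le_max_left _ _), hanti _ _ (le_max_right _ _)⟩
    · intro g
      obtain ⟨b, hbg⟩ := hb {g} (countable_singleton g)
      exact ⟨y b, subset_closure ⟨b, hbg g rfl, rfl⟩⟩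
    · intro g
      exact isClosed_closure.isCompact
    · intro g
      exact isClosed_closure
  obtain ⟨z, hz⟩ := hne
  rw [mem_iInter] at hz
  obtain ⟨g0⟩ := (inferInstance : Nonempty ι)
  have hzr : z ∈ closure (range y) := closure_mono (image_subset_range _ _) (hz g0)
  obtain ⟨D, hD, hDc, hzD⟩ := hct _ z hzr
  have hch : ∀ d : X, ∃ i : ι, d ∈ D → y i = d := by
    intro d
    by_cases hd : d ∈ D
    · obtain ⟨i, hi⟩ := hD hd
      exact ⟨i, fun _ => hi⟩
    · exact ⟨g0, fun h => absurd h hd⟩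
  choose f hf using hch
  obtain ⟨b, hbs⟩ := hb (f '' D) (hDc.image f)
  have hDW : D ⊆ W b := by
    intro d hd
    have h1 := hin (f d) b (hbs _ ⟨d, hd, rfl⟩)
    rw [hf d hd] at h1
    exact h1
  have hzO : z ∈ O b := hWO b (closure_mono hDW hzD)
  obtain ⟨w, hw1, j, hj, rfl⟩ := mem_closure_iff.1 (hz b) (O b) (hO b) hzO
  exact hlater b j hj hw1

end Pool.Agent.Helper535.MN
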