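import Pool.Agent.Helper535.MN.Defs
import Pool.Agent.Helper535.MN.P_bdd_lt
import Pool.Agent.Helper535.MN.P_fodor
import Pool.Agent.Helper535.MN.P_famTrick
import Pool.Agent.Helper535.MN.P_lemZ

set_option autoImplicit false

open Set Topology Cardinal Filter

namespace Pool.Agent.Helper535.MN

universe u



/-- the pressing down argument: the set of bad indices is not stationary -/
theorem press {X : Type u} [TopologicalSpace X] [CompactSpace X] [T2Space X] (hct : CTight X)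
    {μ : X → Set X → Set X} (hμ : MNOp X μ) {Y : Set X} (hY : IsOpen Y)
    {K : Type u} [LinearOrder K] [WellFoundedLT K]
    (hIic : ∀ k : K, #(Iic k) < Order.cof K) (hunc : ℵ₀ < Order.cof K)
    (Q : K → Set X) (hQo : ∀ k, IsOpen (Q k)) (hQY : ∀ k, Q k ⊆ Y)
    (hQc : ∀ j k, j < k → closure (Q j) ∩ Y ⊆ Q k)
    (hQs : ∀ k, ∃ κ : Cardinal.{u}, ℵ₀ ≤ κ ∧ κ < Order.cof K ∧ Cv κ (Q k)) :
    ∃ G : K → K, ∀ k, FC G k → closure (⋃ j : Iio k, Q j) ∩ Y ⊆ ⋃ j : Iio k, Q j := by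
  classical
  by_contra hcon
  push Not at hcon
  -- the bad set is stationary
  have hS : Stat {k : K | ¬ (closure (⋃ j : Iio k, Q j) ∩ Y ⊆ ⋃ j : Iio k, Q j)} := by
    intro G
    obtain ⟨k, hk1, hk2⟩ := hcon G
    exact ⟨k, hk2, hk1⟩
  have h1lt : (1 : Cardinal.{u}) < Order.cof K := lt_trans Cardinal.one_lt_aleph0 hunc
  have hnomax : ∀ k : K, ∃ b, k < b := by
    intro k
    obtain ⟨b, hb⟩ := bdd_lt (T := {k}) (by rw [Cardinal.mk_singleton]; exact h1lt)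
    exact ⟨b, hb k rfl⟩
  choose σ hσ using hnomax
  set S' : Set K := {k : K | ¬ (closure (⋃ j : Iio k, Q j) ∩ Y ⊆ ⋃ j : Iio k, Q j) ∧ FC σ k} with hS'def
  have hS' : Stat S' := by
    intro G
    obtain ⟨δ, h1, h2⟩ := hS (fun ξ => max (G ξ) (σ ξ))
    exact ⟨δ, ⟨h1, fun ξ hξ => lt_of_le_of_lt (le_max_right _ _) (h2 ξ hξ)⟩,
      fun ξ hξ => lt_of_le_of_lt (le_max_left _ _) (h2 ξ hξ)⟩
  have hmono : ∀ j k, j < k → Q j ⊆ Q k := fun j k hjk z hz =>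
    hQc j k hjk ⟨subset_closure hz, hQY j hz⟩
  have hRQ : ∀ k, (⋃ j : Iio k, Q j) ⊆ Q k := by
    intro k
    exact Set.iUnion_subset fun j => hmono j k j.2
  have hyex : ∀ k ∈ S', ∃ y : X, y ∈ closure (⋃ j : Iio k, Q j) ∧ y ∈ Y ∧
      (y ∉ ⋃ j : Iio k, Q j) ∧ ∃ W : Set X, IsOpen W ∧ y ∈ W ∧ closure W ⊆ Q (σ k) := by
    intro k hk
    obtain ⟨y, ⟨hy1, hy2⟩, hy3⟩ := Set.not_subset.1 hk.1
    have hyQ : y ∈ Q (σ k) := hQc k (σ k) (hσ k) ⟨closure_mono (hRQ k) hy1, hy2⟩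
    obtain ⟨t, ht1, ht2, ht3⟩ := exists_mem_nhds_isClosed_subset ((hQo (σ k)).mem_nhds hyQ)
    exact ⟨y, hy1, hy2, hy3, interior t, isOpen_interior, mem_interior_iff_mem_nhds.2 ht1,
      (closure_minimal interior_subset ht2).trans ht3⟩
  obtain ⟨k0, hk0, _⟩ := hS' σ
  obtain ⟨y0, _⟩ := hyex k0 hk0
  have hyex' : ∀ k, ∃ y : X, ∃ W : Set X, k ∈ S' → (y ∈ closure (⋃ j : Iio k, Q j) ∧ y ∈ Y ∧
      (y ∉ ⋃ j : Iio k, Q j) ∧ IsOpen W ∧ y ∈ W ∧ closure W ⊆ Q (σ k)) := by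
    intro k
    by_cases hk : k ∈ S'
    · obtain ⟨y, h1, h2, h3, W, h4, h5, h6⟩ := hyex k hk
      exact ⟨y, W, fun _ => ⟨h1, h2, h3, h4, h5, h6⟩⟩
    · exact ⟨y0, ∅, fun h => absurd h hk⟩
  choose y W hyW using hyex'
  -- the families
  have hFex : ∀ j, ∃ F : Set X, #F < Order.cof K ∧ F ⊆ Q j ∧ ∀ y ∉ Q j, ∀ W, IsOpen W → y ∈ W →
      Disjoint W F → Disjoint (μ y W) (Q j) := by
    intro j
    obtain ⟨κ, hκ1, hκ2, hκ3⟩ := hQs j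
    obtain ⟨F, hF1, hF2, hF3⟩ := famTrick hμ hκ1 (hQo j) hκ3
    exact ⟨F, lt_of_le_of_lt hF1 hκ2, hF2, hF3⟩
  choose F hF1 hF2 hF3 using hFex
  have hhex : ∀ k, ∃ j : K, ∃ f : X, k ∈ S' → (j < k ∧ f ∈ μ (y k) (W k) ∧ f ∈ F j) := by
    intro k
    by_cases hk : k ∈ S'
    · obtain ⟨h1, h2, h3, h4, h5, h6⟩ := hyW k hk
      by_contra hno
      push Not at hno
      have hV1 : IsOpen (μ (y k) (W k)) := hμ.isOpen _ _ h4 h5
      have hV2 : y k ∈ μ (y k) (W k) := hμ.mem _ _ h4 h5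
      have hdis : ∀ j < k, Disjoint (μ (y k) (μ (y k) (W k))) (Q j) := by
        intro j hj
        apply hF3 j (y k) (fun hq => h3 (Set.mem_iUnion.2 ⟨⟨j, hj⟩, hq⟩)) _ hV1 hV2
        rw [Set.disjoint_left]
        intro f hf1 hf2
        exact (hno j f).2 hj hf1 hf2
      have h7 : IsOpen (μ (y k) (μ (y k) (W k))) := hμ.isOpen _ _ hV1 hV2
      have h8 : y k ∈ μ (y k) (μ (y k) (W k)) := hμ.mem _ _ hV1 hV2
      obtain ⟨z, hz1, hz2⟩ := mem_closure_iff.1 h1 _ h7 h8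
      obtain ⟨j, hj⟩ := Set.mem_iUnion.1 hz2
      exact Set.disjoint_left.1 (hdis j j.2) hz1 hj
    · exact ⟨k, y0, fun h => absurd h hk⟩
  choose h f hhf using hhex
  obtain ⟨i, hT⟩ := fodor hIic hunc.le (S := S') h (fun δ hδ => (hhf δ hδ).1) hS'
  have hTunb : ∀ b : K, ∃ k, (k ∈ S' ∧ h k = i) ∧ b < k := by
    intro b
    obtain ⟨δ, ⟨hδ1, hδ2⟩, hδ3⟩ := hT (fun _ => σ b)
    exact ⟨δ, ⟨hδ1, hδ2⟩, (hσ b).trans (hδ3 (h δ) (hhf δ hδ1).1)⟩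
  obtain ⟨φ, hφ⟩ : ∃ φ : X, ∀ b : K, ∃ k, (k ∈ S' ∧ h k = i ∧ f k = φ) ∧ b < k := by
    by_contra hno
    push Not at hno
    choose bd hbd using hno
    obtain ⟨b, hb⟩ := bdd_lt (T := bd '' (F i)) (lt_of_le_of_lt Cardinal.mk_image_le (hF1 i))
    obtain ⟨k, ⟨hk1, hk2⟩, hk3⟩ := hTunb b
    have hfk := (hhf k hk1).2.2
    rw [hk2] at hfk
    have h1 := hbd (f k) k ⟨hk1, hk2, rfl⟩
    have h2 := hb (bd (f k)) ⟨f k, hfk, rfl⟩
    exact absurd (h1.trans_lt h2) (not_lt.2 hk3.le)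
  let ι := {k : K // k ∈ S' ∧ h k = i ∧ f k = φ}
  obtain ⟨k1, hk1, _⟩ := hφ k0
  haveI : Nonempty ι := ⟨⟨k1, hk1⟩⟩
  have hlater : ∀ a b : ι, a < b → y b.1 ∉ Q (σ a.1) := by
    intro a b hab hmem
    obtain ⟨_, _, h3, _⟩ := hyW b.1 b.2.1
    exact h3 (Set.mem_iUnion.2 ⟨⟨σ a.1, b.2.1.2 a.1 hab⟩, hmem⟩)
  refine lemZ hct (ι := ι) ?_ (fun a => y a.1) (fun a => W a.1) (fun a => Q (σ a.1))
    (fun a => hQo _) (fun a => (hyW a.1 a.2.1).2.2.2.2.2) hlater ?_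
  · intro s hs
    have hs' : #(Subtype.val '' s : Set K) < Order.cof K :=
      lt_of_le_of_lt (Cardinal.mk_image_le.trans (Cardinal.mk_le_aleph0_iff.2 hs.to_subtype)) hunc
    obtain ⟨b0, hb0⟩ := bdd_lt hs'
    obtain ⟨k, hk1, hk2⟩ := hφ b0
    exact ⟨⟨k, hk1⟩, fun a ha => (hb0 a.1 ⟨a, ha, rfl⟩).trans hk2⟩
  · intro a b hab
    obtain ⟨_, _, _, ha4, ha5, ha6⟩ := hyW a.1 a.2.1
    obtain ⟨_, _, _, hb4, hb5, hb6⟩ := hyW b.1 b.2.1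
    have ha7 := (hhf a.1 a.2.1).2.1
    have hb7 := (hhf b.1 b.2.1).2.1
    rw [a.2.2.2] at ha7
    rw [b.2.2.2] at hb7
    rcases hμ.sep (y a.1) (y b.1) (W a.1) (W b.1) ha4 hb4 ha5 hb5 ⟨φ, ha7, hb7⟩ with h1 | h1
    · exact h1
    · exact absurd (ha6 (subset_closure h1)) (hlater a b hab)

end Pool.Agent.Helper535.MN
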