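import Pool.Agent.Helper535.MN.Defs

set_option autoImplicit false

open Set Topology Cardinal Filter

namespace Pool.Agent.Helper535.MN

universe u



/-- closed points exist, even above every given point -/
theorem stat_univ {K : Type u} [LinearOrder K] [WellFoundedLT K] (hIic : ∀ k : K, #(Iic k) < Order.cof K)
    (hunc : ℵ₀ < Order.cof K) (G : K → K) (b : K) : ∃ δ, b < δ ∧ FC G δ := by
  have bnd : ∀ S : Set K, #S < Order.cof K → ∃ x, ∀ s ∈ S, s < x := by
    intro S hS
    have h1 : ¬ IsCofinal S := fun h => absurd (Order.cof_le h) (not_le.2 hS)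
    unfold IsCofinal at h1
    push Not at h1
    exact h1
  have step : ∀ x : K, ∃ y, x < y ∧ ∀ ξ ≤ x, G ξ < y := by
    intro x
    obtain ⟨y1, h1⟩ := bnd (G '' Iic x) (lt_of_le_of_lt Cardinal.mk_image_le (hIic x))
    obtain ⟨y2, h2⟩ := bnd {x} (by
      rw [Cardinal.mk_singleton]
      exact lt_trans Cardinal.one_lt_aleph0 hunc)
    refine ⟨max y1 y2, lt_of_lt_of_le (h2 x rfl) (le_max_right _ _), fun ξ hξ => ?_⟩
    exact lt_of_lt_of_le (h1 _ ⟨ξ, hξ, rfl⟩) (le_max_left _ _)
  choose nx hnx1 hnx2 using step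
  set x : ℕ → K := fun n => nx^[n + 1] b with hx
  have hxs : ∀ n, x (n + 1) = nx (x n) := by
    intro n
    simp only [hx]
    rw [Function.iterate_succ_apply' nx (n + 1) b]
  obtain ⟨d, hd⟩ := bnd (Set.range x) (by
    refine lt_of_le_of_lt ?_ hunc
    exact Cardinal.mk_le_aleph0_iff.2 (Set.countable_range x).to_subtype)
  have hne : {d | ∀ n, x n < d}.Nonempty := ⟨d, fun n => hd _ ⟨n, rfl⟩⟩
  set δ := (wellFounded_lt : WellFounded ((· < ·) : K → K → Prop)).min {d | ∀ n, x n < d} hne with hδ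
  have hδ1 : ∀ n, x n < δ := WellFounded.min_mem _ _ hne
  refine ⟨δ, ?_, ?_⟩
  · have h0 : b < x 0 := hnx1 b
    exact h0.trans (hδ1 0)
  · intro ξ hξ
    have h1 : ξ ∉ {d | ∀ n, x n < d} := fun h =>
      WellFounded.not_lt_min _ _ h hξ
    simp only [Set.mem_setOf_eq, not_forall, not_lt] at h1
    obtain ⟨n, hn⟩ := h1
    have h2 : G ξ < x (n + 1) := by
      rw [hxs n]
      exact hnx2 (x n) ξ hn
    exact h2.trans (hδ1 (n + 1))

end Pool.Agent.Helper535.MN
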