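import Pool.Agent.Helper535.MN.P_clo
import Pool.Agent.Helper535.MN.P_hull

set_option autoImplicit false

open Set Topology Cardinal Filter

namespace Pool.Agent.Helper535.MN

universe u

theorem stepEx {X : Type u} [TopologicalSpace X] [CompactSpace X] [T2Space X] (hct : CTight X)
    {μ : X → Set X → Set X} (hμ : MNOp X μ) {κ : Cardinal.{u}} (hκ : ℵ₀ ≤ κ)
    {Y A : Set X} (hY : IsOpen Y) (hA : IsOpen A) (hAY : A ⊆ Y) (hc : Cv κ A) :
    ∃ B, IsOpen B ∧ B ⊆ Y ∧ Cv κ B ∧ closure A ∩ Y ⊆ B := by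
  obtain ⟨B, h1, h2, h3, h4⟩ := hull hκ hY (inter_subset_right (s := closure A))
    (clo hct hμ hκ hY hA hAY hc)
  exact ⟨B, h1, h3, h4, h2⟩

end Pool.Agent.Helper535.MN
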