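import Pool.Agent.Helper535.MN.Defs
import Pool.Agent.Helper535.MN.P_stat_univ
import Pool.Agent.Helper535.MN.P_exReg
import Pool.Agent.Helper535.MN.P_cv_union
import Pool.Agent.Helper535.MN.P_cv_iUnion
import Pool.Agent.Helper535.MN.P_hull
import Pool.Agent.Helper535.MN.P_stepEx
import Pool.Agent.Helper535.MN.P_press

set_option autoImplicit false

open Set Topology Cardinal Filter

namespace Pool.Agent.Helper535.MN

universe u



theorem clopenHull {X : Type u} [TopologicalSpace X] [CompactSpace X] [T2Space X] (hct : CTight X)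
    {μ : X → Set X → Set X} (hμ : MNOp X μ) {κ : Cardinal.{u}} (hκ : ℵ₀ ≤ κ)
    {Y C : Set X} (hY : IsOpen Y) (hCY : C ⊆ Y) (hc : Cv κ C) :
    ∃ Q, RC Y Q ∧ C ⊆ Q ∧ Cv κ Q := by
  classical
  obtain ⟨K, instK, wf, hcard, hcof, hic, hio⟩ := exReg κ hκ
  obtain ⟨C', hC'o, hCC', hC'Y, hC'c⟩ := hull hκ hY hCY hc
  have hstep : ∀ A : Set X, ∃ B : Set X, (IsOpen A ∧ A ⊆ Y ∧ Cv κ A) →
      IsOpen B ∧ B ⊆ Y ∧ Cv κ B ∧ closure A ∩ Y ⊆ B := by
    intro A
    by_cases h : IsOpen A ∧ A ⊆ Y ∧ Cv κ A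
    · obtain ⟨B, hB⟩ := stepEx hct hμ hκ hY h.1 h.2.1 h.2.2
      exact ⟨B, fun _ => hB⟩
    · exact ⟨∅, fun h' => absurd h' h⟩
  choose B hB using hstep
  let Q : K → Set X := WellFoundedLT.fix (motive := fun _ => Set X)
    (fun k ih => B (C' ∪ ⋃ j : Iio k, ih j.1 j.2))
  have hQ : ∀ k, Q k = B (C' ∪ ⋃ j : Iio k, Q j) := fun k => WellFoundedLT.fix_eq _ k
  have good : ∀ k, IsOpen (Q k) ∧ Q k ⊆ Y ∧ Cv κ (Q k) ∧
      closure (C' ∪ ⋃ j : Iio k, Q j) ∩ Y ⊆ Q k := by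
    intro k
    induction k using WellFoundedLT.induction with
    | ind k ih =>
      have hA : IsOpen (C' ∪ ⋃ j : Iio k, Q j) ∧ (C' ∪ ⋃ j : Iio k, Q j) ⊆ Y ∧
          Cv κ (C' ∪ ⋃ j : Iio k, Q j) := by
        refine ⟨?_, ?_, ?_⟩
        · exact hC'o.union (isOpen_iUnion (fun j => (ih j.1 j.2).1))
        · exact union_subset hC'Y (iUnion_subset (fun j => (ih j.1 j.2).2.1))
        · exact cv_union hκ hC'c (cv_iUnion hκ (hio k) (fun j => (ih j.1 j.2).2.2.1))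
      have := hB _ hA
      rw [← hQ k] at this
      exact this
  have hlt : κ < Order.succ κ := Order.lt_succ κ
  have hIic : ∀ k : K, #(Iic k) < Order.cof K := by
    intro k
    rw [hcof]
    exact lt_of_le_of_lt (hic k) hlt
  have hunc : ℵ₀ < Order.cof K := by
    rw [hcof]
    exact lt_of_le_of_lt hκ hlt
  have hQc : ∀ j k, j < k → closure (Q j) ∩ Y ⊆ Q k := by
    intro j k hjk
    refine Subset.trans (inter_subset_inter_left _ (closure_mono ?_)) (good k).2.2.2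
    exact Subset.trans (subset_iUnion (fun j : Iio k => Q j) ⟨j, hjk⟩) subset_union_right
  have hQs : ∀ k, ∃ κ' : Cardinal.{u}, ℵ₀ ≤ κ' ∧ κ' < Order.cof K ∧ Cv κ' (Q k) := by
    intro k
    refine ⟨κ, hκ, ?_, (good k).2.2.1⟩
    rw [hcof]
    exact hlt
  obtain ⟨G, hG⟩ := press hct hμ hY hIic hunc Q (fun k => (good k).1) (fun k => (good k).2.1)
    hQc hQs
  have hne : Nonempty K := by
    rw [← Cardinal.mk_ne_zero_iff, hcard]
    exact (lt_of_le_of_lt zero_le hlt).ne'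
  obtain ⟨b⟩ := hne
  obtain ⟨δ, hbδ, hδ⟩ := stat_univ hIic hunc G b
  refine ⟨⋃ j : Iio δ, Q j, ⟨isOpen_iUnion (fun j => (good j).1),
    iUnion_subset (fun j => (good j).2.1), hG δ hδ⟩, ?_,
    cv_iUnion hκ (hio δ) (fun j => (good j).2.2.1)⟩
  refine Subset.trans hCC' (Subset.trans ?_ (subset_iUnion (fun j : Iio δ => Q j) ⟨b, hbδ⟩))
  intro x hx
  exact (good b).2.2.2 ⟨subset_closure (Or.inl hx), hC'Y hx⟩

end Pool.Agent.Helper535.MN
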