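import Pool.Agent.Helper535.MN.Defs

set_option autoImplicit false

open Set Topology Cardinal Filter

namespace Pool.Agent.Helper535.MN

universe u

theorem cv_mono {X : Type u} [TopologicalSpace X] {κ κ' : Cardinal.{u}} (h : κ ≤ κ') {A : Set X}
    (hA : Cv κ A) : Cv κ' A := by
  obtain ⟨ι, C, h1, h2, h3⟩ := hA
  exact ⟨ι, C, h1.trans h, h2, h3⟩

end Pool.Agent.Helper535.MN
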