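import Pool.Agent.Helper535.MN.Defs
import Pool.Agent.Helper535.MN.P_cv_mono
import Pool.Agent.Helper535.MN.P_cv_union
import Pool.Agent.Helper535.MN.P_cv_iUnion
import Pool.Agent.Helper535.MN.P_clopenHull

set_option autoImplicit false

open Set Topology Cardinal Filter

namespace Pool.Agent.Helper535.MN

universe u



theorem chain_hull {X : Type u} [TopologicalSpace X] [CompactSpace X] [T2Space X]
    (hct : CTight X) {μ : X → Set X → Set X} (hμ : MNOp X μ) {Y : Set X} (hY : IsOpen Y)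
    (A : Set X) (hA : A ⊆ Y) :
    ∃ Q, RC Y Q ∧ A ⊆ Q ∧ ∀ κ : Cardinal.{u}, ℵ₀ ≤ κ → Cv κ A → Cv κ Q := by
  by_cases h : ∃ κ : Cardinal.{u}, ℵ₀ ≤ κ ∧ Cv κ A
  · obtain ⟨κ₀, hκ₀, hmin⟩ := (wellFounded_lt (α := Cardinal.{u})).has_min
      {κ : Cardinal.{u} | ℵ₀ ≤ κ ∧ Cv κ A} h
    obtain ⟨Q, h1, h2, h3⟩ := clopenHull hct hμ hκ₀.1 hY hA hκ₀.2
    refine ⟨Q, h1, h2, fun κ hκ hc => ?_⟩
    have h4 : κ₀ ≤ κ := not_lt.1 (hmin κ ⟨hκ, hc⟩)
    exact cv_mono h4 h3
  · refine ⟨Y, ⟨hY, Subset.rfl, inter_subset_right⟩, hA, fun κ hκ hc => ?_⟩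
    exact absurd ⟨κ, hκ, hc⟩ h

/-- the chain of open and closed sets -/
theorem chain {X : Type u} [TopologicalSpace X] [CompactSpace X] [T2Space X] (hct : CTight X)
    {μ : X → Set X → Set X} (hμ : MNOp X μ) {Y : Set X} (hY : IsOpen Y)
    (K : Type u) [LinearOrder K] [WellFoundedLT K] (C : K → Set X) (hC : ∀ k, IsCompact (C k))
    (hCY : (⋃ k, C k) = Y) :
    ∃ Q : K → Set X, (∀ k, RC Y (Q k)) ∧ (∀ j k, j ≤ k → Q j ⊆ Q k) ∧ (⋃ k, Q k) = Y ∧
      ∀ k, Cv (max (#(Iic k)) ℵ₀) (Q k) := by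
  classical
  have hex : ∀ A : Set X, ∃ Q : Set X, A ⊆ Y →
      (RC Y Q ∧ A ⊆ Q ∧ ∀ κ : Cardinal.{u}, ℵ₀ ≤ κ → Cv κ A → Cv κ Q) := by
    intro A
    by_cases hA : A ⊆ Y
    · obtain ⟨Q, hQ⟩ := chain_hull hct hμ hY A hA
      exact ⟨Q, fun _ => hQ⟩
    · exact ⟨∅, fun h => absurd h hA⟩
  choose H hH using hex
  obtain ⟨Q, hQ⟩ : ∃ Q : K → Set X, ∀ k, Q k = H (C k ∪ ⋃ j : Iio k, Q j) := by
    refine ⟨(wellFounded_lt (α := K)).fix
      (fun k rec => H (C k ∪ ⋃ j : Iio k, rec j.1 j.2)), fun k => ?_⟩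
    rw [WellFounded.fix_eq]
  have hCk : ∀ k, C k ⊆ Y := fun k => by rw [← hCY]; exact subset_iUnion C k
  have main : ∀ k, RC Y (Q k) ∧ C k ⊆ Q k ∧ (∀ j, j < k → Q j ⊆ Q k) ∧
      Cv (max (#(Iic k)) ℵ₀) (Q k) := by
    intro k
    induction k using WellFoundedLT.induction with
    | ind k ih =>
      have hA : C k ∪ ⋃ j : Iio k, Q j ⊆ Y := by
        apply union_subset (hCk k)
        apply iUnion_subset
        intro j
        exact (ih j.1 j.2).1.2.1
      obtain ⟨h1, h2, h3⟩ := hH _ hA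
      rw [← hQ k] at h1 h2 h3
      refine ⟨h1, subset_union_left.trans h2, ?_, ?_⟩
      · intro j hj
        exact ((subset_iUnion (fun j : Iio k => Q j) ⟨j, hj⟩).trans subset_union_right).trans h2
      · apply h3 _ (le_max_right _ _)
        apply cv_union (le_max_right _ _)
        · refine ⟨PUnit, fun _ => C k, ?_, fun _ => hC k, iUnion_const (C k)⟩
          rw [Cardinal.mk_punit]
          exact (Cardinal.one_le_aleph0).trans (le_max_right _ _)
        · apply cv_iUnion (le_max_right _ _)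
          · exact (Cardinal.mk_le_mk_of_subset Iio_subset_Iic_self).trans (le_max_left _ _)
          · intro j
            refine cv_mono ?_ (ih j.1 j.2).2.2.2
            apply max_le_max _ le_rfl
            apply Cardinal.mk_le_mk_of_subset
            exact Iic_subset_Iic.2 (le_of_lt j.2)
  refine ⟨Q, fun k => (main k).1, ?_, ?_, fun k => (main k).2.2.2⟩
  · intro j k hjk
    rcases hjk.eq_or_lt with h | h
    · rw [h]
    · exact (main k).2.2.1 j h
  · apply Subset.antisymm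
    · exact iUnion_subset fun k => (main k).1.2.1
    · rw [← hCY]
      exact iUnion_mono fun k => (main k).2.1

end Pool.Agent.Helper535.MN
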