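import Pool.Agent.Helper535.MN.Defs

set_option autoImplicit false

open Set Topology Cardinal Filter

namespace Pool.Agent.Helper535.MN

universe u



/-- transfinite choice of points avoiding the sets attached to the earlier points -/
theorem recSeq {X : Type u} (K : Type u) [LinearOrder K] [WellFoundedLT K] (A : Set X)
    (O : X → Set X) (h : ∀ (k : K) (s : Iio k → X), (∀ j, s j ∈ A) → ∃ x ∈ A, ∀ j, x ∉ O (s j)) :
    ∃ y : K → X, (∀ k, y k ∈ A) ∧ ∀ j k, j < k → y k ∉ O (y j) := by
  classical
  rcases isEmpty_or_nonempty K with hK | hK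
  · exact ⟨fun k => (hK.false k).elim, fun k => (hK.false k).elim, fun j => (hK.false j).elim⟩
  · have hwf : WellFounded (fun a b : K => a < b) := wellFounded_lt
    obtain ⟨k0, -, hk0⟩ := hwf.has_min Set.univ Set.univ_nonempty
    have hemp : ∀ j : Iio k0, False := fun j => hk0 j.1 (Set.mem_univ _) j.2
    obtain ⟨x0, -, -⟩ := h k0 (fun j => (hemp j).elim) (fun j => (hemp j).elim)
    let F : (k : K) → ((j : K) → j < k → X) → X := fun k rec =>
      if h' : ∀ j : Iio k, rec j.1 j.2 ∈ A then (h k (fun j => rec j.1 j.2) h').choose else x0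
    let y : K → X := hwf.fix F
    have hy : ∀ k, y k = F k (fun j _ => y j) := fun k => hwf.fix_eq F k
    have hyc : ∀ k (h' : ∀ j : Iio k, y j.1 ∈ A), y k = (h k (fun j => y j.1) h').choose := by
      intro k h'
      rw [hy k]
      exact dif_pos h'
    have hA : ∀ k, y k ∈ A := by
      intro k
      induction k using hwf.induction with
      | _ k ih =>
        have h' : ∀ j : Iio k, y j.1 ∈ A := fun j => ih j.1 j.2
        rw [hyc k h']
        exact (h k (fun j => y j.1) h').choose_spec.1
    refine ⟨y, hA, fun j k hjk => ?_⟩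
    rw [hyc k (fun j => hA j.1)]
    exact (h k (fun j => y j.1) (fun j => hA j.1)).choose_spec.2 ⟨j, hjk⟩

end Pool.Agent.Helper535.MN
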