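import Pool.Agent.Helper535.MN.Defs
import Pool.Agent.Helper535.MN.P_lemZ
import Pool.Agent.Helper535.MN.P_recSeq
import Pool.Agent.Helper535.MN.P_exReg

set_option autoImplicit false

open Set Topology Cardinal Filter

namespace Pool.Agent.Helper535.MN

universe u



theorem dens {X : Type u} [TopologicalSpace X] [CompactSpace X] [T2Space X] (hct : CTight X)
    {μ : X → Set X → Set X} (hμ : MNOp X μ) {κ : Cardinal.{u}} (hκ : ℵ₀ ≤ κ)
    {F G : Set X} (hF : #F ≤ κ) (hG : IsOpen G) : Cv κ (closure F ∩ G) := by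
  by_contra hno
  have hch : ∀ x : X, ∃ O W : Set X, IsOpen O ∧ IsOpen W ∧ closure W ⊆ O ∧ closure O ⊆ G ∧
      (x ∈ G → x ∈ W) := by
    intro x
    by_cases hx : x ∈ G
    · obtain ⟨t1, ht1, ht1c, ht1G⟩ := exists_mem_nhds_isClosed_subset (hG.mem_nhds hx)
      obtain ⟨t2, ht2, ht2c, ht2O⟩ := exists_mem_nhds_isClosed_subset (interior_mem_nhds.mpr ht1)
      refine ⟨interior t1, interior t2, isOpen_interior, isOpen_interior, ?_, ?_, ?_⟩
      · exact (closure_minimal interior_subset ht2c).trans ht2O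
      · exact (closure_minimal interior_subset ht1c).trans ht1G
      · intro _; exact mem_interior_iff_mem_nhds.mpr ht2
    · exact ⟨∅, ∅, isOpen_empty, isOpen_empty, by simp, by simp, fun h => absurd h hx⟩
  choose O W hOo hWo hWO hOG hxW using hch
  obtain ⟨K, iK, iWF, hK, hcof, hIic, hIio⟩ := exReg κ hκ
  have hsmall : ∀ s : Set K, #s ≤ κ → ∃ b, ∀ a ∈ s, a < b := by
    intro s hs
    by_contra hcon
    push Not at hcon
    have hcs : IsCofinal s := hcon
    have h1 := Order.cof_le hcs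
    rw [hcof] at h1
    exact absurd (lt_of_lt_of_le (Order.lt_succ κ) h1) (not_lt.mpr hs)
  obtain ⟨y, hyA, hyO⟩ := recSeq K (closure F ∩ G) O (by
    intro k s hs
    by_contra hcon
    push Not at hcon
    apply hno
    refine ⟨Iio k, fun j => closure F ∩ closure (O (s j)), hIio k, ?_, ?_⟩
    · intro j
      exact (isClosed_closure.inter isClosed_closure).isCompact
    · ext x
      rw [mem_iUnion]
      constructor
      · rintro ⟨j, hj1, hj2⟩
        exact ⟨hj1, hOG _ hj2⟩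
      · intro hx
        obtain ⟨j, hj⟩ := hcon x hx
        exact ⟨j, hx.1, subset_closure hj⟩)
  have hyW : ∀ k, y k ∈ W (y k) := fun k => hxW _ (hyA k).2
  have hf : ∀ k, ∃ f : F, (f : X) ∈ μ (y k) (W (y k)) := by
    intro k
    have h1 := mem_closure_iff.mp (hyA k).1 _ (hμ.isOpen _ _ (hWo _) (hyW k)) (hμ.mem _ _ (hWo _) (hyW k))
    obtain ⟨z, hz1, hz2⟩ := h1
    exact ⟨⟨z, hz2⟩, hz1⟩
  choose f hf using hf
  obtain ⟨f₀, hf₀⟩ : ∃ f₀ : F, ∀ b : K, ∃ k, f k = f₀ ∧ b ≤ k := by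
    by_contra hcon
    push Not at hcon
    choose b hb using hcon
    obtain ⟨b', hb'⟩ := hsmall (Set.range b) (mk_range_le.trans hF)
    have h1 := hb (f b') b' rfl
    have h2 := hb' _ ⟨f b', rfl⟩
    exact lt_asymm h1 h2
  haveI hKne : Nonempty K := by
    rw [← Cardinal.mk_ne_zero_iff, hK]
    exact (lt_of_le_of_lt zero_le (Order.lt_succ κ)).ne'
  obtain ⟨k0⟩ := hKne
  obtain ⟨k1, hk1, _⟩ := hf₀ k0
  haveI : Nonempty {k : K // f k = f₀} := ⟨⟨k1, hk1⟩⟩
  have hfi : ∀ i : {k : K // f k = f₀}, (f₀ : X) ∈ μ (y i.1) (W (y i.1)) := by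
    intro i
    have h1 := hf i.1
    rw [i.2] at h1
    exact h1
  refine lemZ hct (ι := {k : K // f k = f₀}) ?_ (fun i => y i.1) (fun i => W (y i.1)) (fun i => O (y i.1))
    (fun i => hOo _) (fun i => hWO _) ?_ ?_
  · intro s hs
    have h1 : (Subtype.val '' s).Countable := hs.image _
    obtain ⟨b, hb⟩ := hsmall (Subtype.val '' s) (h1.le_aleph0.trans hκ)
    obtain ⟨k, hk, hbk⟩ := hf₀ b
    refine ⟨⟨k, hk⟩, ?_⟩
    intro a ha
    exact Subtype.coe_lt_coe.mp (lt_of_lt_of_le (hb _ ⟨a, ha, rfl⟩) hbk)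
  · intro i j hij
    exact hyO _ _ hij
  · intro i j hij
    have h1 := hμ.sep (y i.1) (y j.1) (W (y i.1)) (W (y j.1)) (hWo _) (hWo _) (hyW _) (hyW _)
      ⟨(f₀ : X), hfi i, hfi j⟩
    rcases h1 with h1 | h1
    · exact h1
    · exact absurd (hWO _ (subset_closure h1)) (hyO _ _ hij)

end Pool.Agent.Helper535.MN

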