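import Pool.Agent.Helper535.MN.Defs
import Pool.Agent.Helper535.MN.P_famTrick
import Pool.Agent.Helper535.MN.P_dens
import Pool.Agent.Helper535.MN.P_cv_union

set_option autoImplicit false

open Set Topology Cardinal Filter

namespace Pool.Agent.Helper535.MN

universe u



theorem clo {X : Type u} [TopologicalSpace X] [CompactSpace X] [T2Space X] (hct : CTight X)
    {μ : X → Set X → Set X} (hμ : MNOp X μ) {κ : Cardinal.{u}} (hκ : ℵ₀ ≤ κ)
    {Y O : Set X} (hY : IsOpen Y) (hO : IsOpen O) (hOY : O ⊆ Y) (hc : Cv κ O) :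
    Cv κ (closure O ∩ Y) := by
  obtain ⟨F, hFκ, hFO, hF⟩ := famTrick hμ hκ hO hc
  have e : closure O ∩ Y = O ∪ (closure F ∩ Y) := by
    ext y
    constructor
    · rintro ⟨hy1, hy2⟩
      by_cases hyO : y ∈ O
      · exact Or.inl hyO
      · right
        refine ⟨?_, hy2⟩
        by_contra hyF
        have hW : IsOpen (closure F)ᶜ := isClosed_closure.isOpen_compl
        have hd : Disjoint (closure F)ᶜ F := by
          rw [Set.disjoint_left]
          intro z hz hz2
          exact hz (subset_closure hz2)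
        have h1 := hF y hyO _ hW hyF hd
        obtain ⟨z, hz1, hz2⟩ := mem_closure_iff.1 hy1 _ (hμ.isOpen y _ hW hyF) (hμ.mem y _ hW hyF)
        exact (Set.disjoint_left.1 h1) hz1 hz2
    · rintro (hy | ⟨hy1, hy2⟩)
      · exact ⟨subset_closure hy, hOY hy⟩
      · exact ⟨closure_mono hFO hy1, hy2⟩
  rw [e]
  exact cv_union hκ hc (dens hct hμ hκ hFκ hY)

end Pool.Agent.Helper535.MN
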