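import Pool.Agent.Helper535.MN.Defs

set_option autoImplicit false

open Set Topology Cardinal Filter

namespace Pool.Agent.Helper535.MN

universe u



theorem part_glue {X : Type u} [TopologicalSpace X] {Y : Set X} (𝒬 : Set (Set X))
    (h1 : ∀ Q ∈ 𝒬, Part Q) (h2 : 𝒬.PairwiseDisjoint id) (h3 : ⋃₀ 𝒬 = Y) : Part Y := by
  choose R hR1 hR2 hR3 using h1
  refine ⟨{P | ∃ (Q : Set X) (h : Q ∈ 𝒬), P ∈ R Q h}, ?_, ?_, ?_⟩
  · rintro P ⟨Q, h, hP⟩
    exact hR1 Q h P hP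
  · rintro P ⟨Q, h, hP⟩ P' ⟨Q', h', hP'⟩ hne
    by_cases hQ : Q = Q'
    · subst hQ
      exact hR2 Q h hP hP' hne
    · have hd : Disjoint Q Q' := h2 h h' hQ
      have s1 : P ⊆ Q := by
        have := hR3 Q h
        intro x hx
        rw [← this]
        exact ⟨P, hP, hx⟩
      have s2 : P' ⊆ Q' := by
        have := hR3 Q' h'
        intro x hx
        rw [← this]
        exact ⟨P', hP', hx⟩
      exact Disjoint.mono s1 s2 hd
  · ext x
    constructor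
    · rintro ⟨P, ⟨Q, h, hP⟩, hx⟩
      rw [← h3]
      refine ⟨Q, h, ?_⟩
      rw [← hR3 Q h]
      exact ⟨P, hP, hx⟩
    · intro hx
      rw [← h3] at hx
      obtain ⟨Q, h, hxQ⟩ := hx
      have hx' : x ∈ ⋃₀ R Q h := by
        rw [hR3 Q h]
        exact hxQ
      obtain ⟨P, hP, hxP⟩ := hx'
      exact ⟨P, ⟨Q, h, hP⟩, hxP⟩

end Pool.Agent.Helper535.MN
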