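import Pool.Agent.Helper535.MN.Defs
import Pool.Agent.Helper535.MN.P_stat_univ
import Pool.Agent.Helper535.MN.P_cv_iUnion
import Pool.Agent.Helper535.MN.P_press
import Pool.Agent.Helper535.MN.P_part_glue

set_option autoImplicit false

open Set Topology Cardinal Filter

namespace Pool.Agent.Helper535.MN

universe u



theorem Cv.mono_card {X : Type u} [TopologicalSpace X] {κ κ' : Cardinal.{u}} {A : Set X}
    (h : Cv κ A) (hk : κ ≤ κ') : Cv κ' A := by
  obtain ⟨ι, C, h1, h2, h3⟩ := h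
  exact ⟨ι, C, h1.trans hk, h2, h3⟩

theorem Cv.diff_open {X : Type u} [TopologicalSpace X] {κ : Cardinal.{u}} {A O : Set X}
    (h : Cv κ A) (hO : IsOpen O) : Cv κ (A \ O) := by
  obtain ⟨ι, C, h1, h2, h3⟩ := h
  refine ⟨ι, fun i => C i \ O, h1, fun i => (h2 i).diff hO, ?_⟩
  rw [← h3, Set.iUnion_sdiff]

/-- the union of the earlier sets -/
def Rk {X : Type u} {K : Type u} [LinearOrder K] (Q : K → Set X) (k : K) : Set X := ⋃ j : Iio k, Q j

theorem Rk_mono {X : Type u} {K : Type u} [LinearOrder K] (Q : K → Set X) {j k : K} (h : j ≤ k) :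
    Rk Q j ⊆ Rk Q k := by
  intro x hx
  simp only [Rk, Set.mem_iUnion] at hx ⊢
  obtain ⟨⟨i, hi⟩, hxi⟩ := hx
  exact ⟨⟨i, lt_of_lt_of_le hi h⟩, hxi⟩

theorem Ed_eq {X : Type u} {K : Type u} [LinearOrder K] [WellFoundedLT K] (Q : K → Set X)
    (G : K → K) (d : K) :
    ∃ e, FC G e ∧ (⋃ d' ∈ {d' : K | FC G d' ∧ d' < d}, Rk Q d') = Rk Q e := by
  classical
  set D' : Set K := {d' : K | FC G d' ∧ d' < d} with hD'
  set S : Set K := {k | ∀ d' ∈ D', d' ≤ k} with hS
  have hdS : d ∈ S := fun d' hd' => hd'.2.le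
  have hne : S.Nonempty := ⟨d, hdS⟩
  set e : K := (wellFounded_lt (α := K)).min S hne with he
  have heS : e ∈ S := WellFounded.min_mem _ _ _
  have hmin : ∀ ξ, ξ < e → ξ ∉ S := fun ξ hξ hξS =>
    (WellFounded.not_lt_min (wellFounded_lt (α := K)) S hξS) hξ
  by_cases hmem : e ∈ D'
  · refine ⟨e, hmem.1, ?_⟩
    apply Set.Subset.antisymm
    · exact Set.iUnion₂_subset fun d' hd' => Rk_mono Q (heS d' hd')
    · exact Set.subset_biUnion_of_mem (u := fun d' => Rk Q d') hmem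
  · have hex : ∀ ξ, ξ < e → ∃ d' ∈ D', ξ < d' := by
      intro ξ hξ
      have := hmin ξ hξ
      simp only [hS, Set.mem_ofPred_eq, not_forall, not_le] at this
      obtain ⟨d', hd', hlt⟩ := this
      exact ⟨d', hd', hlt⟩
    refine ⟨e, ?_, ?_⟩
    · intro ξ hξ
      obtain ⟨d', hd', hlt⟩ := hex ξ hξ
      exact lt_of_lt_of_le (hd'.1 ξ hlt) (heS d' hd')
    · apply Set.Subset.antisymm
      · exact Set.iUnion₂_subset fun d' hd' => Rk_mono Q (heS d' hd')
      · intro x hx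
        simp only [Rk, Set.mem_iUnion] at hx
        obtain ⟨⟨j, hj⟩, hxj⟩ := hx
        obtain ⟨d', hd', hlt⟩ := hex j hj
        refine Set.mem_biUnion hd' ?_
        simp only [Rk, Set.mem_iUnion]
        exact ⟨⟨j, hlt⟩, hxj⟩

theorem regCase {X : Type u} [TopologicalSpace X] [CompactSpace X] [T2Space X] (hct : CTight X)
    {μ : X → Set X → Set X} (hμ : MNOp X μ) {κ : Cardinal.{u}} {Y : Set X} (hY : IsOpen Y)
    (K : Type u) [LinearOrder K] [WellFoundedLT K] (hK : #K = κ)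
    (hIic : ∀ k : K, #(Iic k) < κ) (hcof : Order.cof K = κ) (hunc : ℵ₀ < κ)
    (Q : K → Set X) (hQ : ∀ k, RC Y (Q k)) (hmono : ∀ j k, j ≤ k → Q j ⊆ Q k)
    (hcov : (⋃ k, Q k) = Y) (hQs : ∀ k, Cv (max (#(Iic k)) ℵ₀) (Q k))
    (IH : ∀ κ' < κ, ∀ Z : Set X, IsOpen Z → Cv κ' Z → Part Z) : Part Y := by
  classical
  have hIic' : ∀ k : K, #(Iic k) < Order.cof K := fun k => by rw [hcof]; exact hIic k
  have hunc' : ℵ₀ < Order.cof K := by rw [hcof]; exact hunc
  obtain ⟨G, hG⟩ := press hct hμ hY hIic' hunc' Q (fun k => (hQ k).1) (fun k => (hQ k).2.1)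
    (fun j k hjk => (hQ j).2.2.trans (hmono j k hjk.le))
    (fun k => ⟨max (#(Iic k)) ℵ₀, le_max_right _ _, max_lt (hIic' k) hunc', hQs k⟩)
  have hRo : ∀ k, IsOpen (Rk Q k) := fun k => isOpen_iUnion fun j => (hQ j).1
  have hRY : ∀ k, Rk Q k ⊆ Y := fun k => Set.iUnion_subset fun j => (hQ j).2.1
  have hRc : ∀ d, Cv (max (#(Iic d)) ℵ₀) (Rk Q d) := by
    intro d
    refine cv_iUnion (le_max_right _ _) (ι := Iio d) ?_ ?_
    · exact (Cardinal.mk_le_mk_of_subset Iio_subset_Iic_self).trans (le_max_left _ _)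
    · intro j
      refine (hQs j).mono_card (max_le_max ?_ le_rfl)
      exact Cardinal.mk_le_mk_of_subset (Iic_subset_Iic.2 (le_of_lt j.2))
  set E : K → Set X := fun d => ⋃ d' ∈ {d' : K | FC G d' ∧ d' < d}, Rk Q d' with hE
  set P : K → Set X := fun d => Rk Q d \ E d with hP
  have hPart : ∀ d, Part (P d) := by
    intro d
    obtain ⟨e, hFe, hEe⟩ := Ed_eq Q G d
    have hEd : E d = Rk Q e := hEe
    have hcl : closure (Rk Q e) ∩ Y ⊆ Rk Q e := hG e hFe
    have hPd : P d = Rk Q d \ Rk Q e := by simp only [hP, hEd]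
    have hopen : IsOpen (P d) := by
      have : P d = Rk Q d ∩ (closure (Rk Q e))ᶜ := by
        rw [hPd]
        ext x
        simp only [Set.mem_sdiff, Set.mem_inter_iff, Set.mem_compl_iff]
        constructor
        · rintro ⟨h1, h2⟩
          exact ⟨h1, fun h3 => h2 (hcl ⟨h3, hRY d h1⟩)⟩
        · rintro ⟨h1, h2⟩
          exact ⟨h1, fun h3 => h2 (subset_closure h3)⟩
      rw [this]
      exact (hRo d).inter isClosed_closure.isOpen_compl
    refine IH (max (#(Iic d)) ℵ₀) (max_lt (hIic d) hunc) (P d) hopen ?_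
    rw [hPd]
    exact (hRc d).diff_open (hRo e)
  have hdisj : ∀ d d', FC G d → FC G d' → d < d' → Disjoint (P d) (P d') := by
    intro d d' hd hd' hlt
    rw [Set.disjoint_left]
    intro x hx hx'
    exact hx'.2 (Set.mem_biUnion (show d ∈ {d'' : K | FC G d'' ∧ d'' < d'} from ⟨hd, hlt⟩) hx.1)
  refine part_glue (P '' {d | FC G d}) ?_ ?_ ?_
  · rintro _ ⟨d, _, rfl⟩
    exact hPart d
  · rintro _ ⟨d, hd, rfl⟩ _ ⟨d', hd', rfl⟩ hne
    rcases lt_trichotomy d d' with h | h | h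
    · exact hdisj d d' hd hd' h
    · exact absurd (by rw [h]) hne
    · exact (hdisj d' d hd' hd h).symm
  · apply Set.Subset.antisymm
    · rintro x ⟨_, ⟨d, _, rfl⟩, hx⟩
      exact hRY d hx.1
    · intro x hx
      rw [← hcov, Set.mem_iUnion] at hx
      obtain ⟨j, hj⟩ := hx
      obtain ⟨δ, hjδ, hδ⟩ := stat_univ hIic' hunc' G j
      set T : Set K := {d | FC G d ∧ x ∈ Rk Q d} with hT
      have hδT : δ ∈ T := ⟨hδ, by
        simp only [Rk, Set.mem_iUnion]
        exact ⟨⟨j, hjδ⟩, hj⟩⟩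
      have hne : T.Nonempty := ⟨δ, hδT⟩
      set d : K := (wellFounded_lt (α := K)).min T hne with hd
      have hdT : d ∈ T := WellFounded.min_mem _ _ _
      refine ⟨P d, ⟨d, hdT.1, rfl⟩, hdT.2, ?_⟩
      intro hxE
      simp only [hE, Set.mem_iUnion, Set.mem_ofPred_eq, exists_prop] at hxE
      obtain ⟨d', ⟨hd', hlt⟩, hx'⟩ := hxE
      exact (WellFounded.not_lt_min (wellFounded_lt (α := K)) T (show d' ∈ T from ⟨hd', hx'⟩)) hlt

end Pool.Agent.Helper535.MN
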