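import Pool.Agent.Helper535.MN.Defs
import Pool.Agent.Helper535.MN.P_cv_mono
import Pool.Agent.Helper535.MN.P_cv_iUnion
import Pool.Agent.Helper535.MN.P_part_glue

set_option autoImplicit false

open Set Topology Cardinal Filter

namespace Pool.Agent.Helper535.MN

universe u



theorem fin845 {X : Type u} [TopologicalSpace X] [T2Space X] {Y Q : Set X}
    (hQ : RC Y Q) (R : Set (Set X)) (h1 : ∀ P ∈ R, IsOpen P) (h2 : R.PairwiseDisjoint id)
    (h3 : ⋃₀ R = Q) (C : Set X) (hC : IsCompact C) (hCY : C ⊆ Y) :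
    {P | P ∈ R ∧ (P ∩ C).Nonempty}.Finite := by
  classical
  have e : C ∩ Q = C ∩ closure Q := by
    ext z
    constructor
    · rintro ⟨a, b⟩; exact ⟨a, subset_closure b⟩
    · rintro ⟨a, b⟩; exact ⟨a, hQ.2.2 ⟨b, hCY a⟩⟩
  have hc : IsCompact (C ∩ Q) := by
    rw [e]; exact hC.inter_right isClosed_closure
  obtain ⟨t, ht⟩ := hc.elim_finite_subcover (fun P : R => (P : Set X)) (fun P => h1 P.1 P.2)
    (by
      rintro z ⟨-, hz⟩
      rw [← h3] at hz
      obtain ⟨P, hP, hzP⟩ := hz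
      exact mem_iUnion.2 ⟨⟨P, hP⟩, hzP⟩)
  refine Set.Finite.subset (t.finite_toSet.image (fun P : R => (P : Set X))) ?_
  rintro P ⟨hP, z, hzP, hzC⟩
  have hz : z ∈ C ∩ Q := ⟨hzC, by rw [← h3]; exact ⟨P, hP, hzP⟩⟩
  obtain ⟨P', hP', hzP'⟩ := mem_iUnion₂.1 (ht hz)
  refine ⟨P', hP', ?_⟩
  by_contra hne
  exact Set.disjoint_left.1 (h2 P'.2 hP hne) hzP' hzP

theorem step845 {X : Type u} [TopologicalSpace X] [T2Space X] {Y : Set X} {K : Type u}
    (Q : K → Set X) (hQ : ∀ k, RC Y (Q k)) (R : K → Set (Set X))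
    (h1 : ∀ k, ∀ P ∈ R k, IsOpen P ∧ Cv ℵ₀ P) (h2 : ∀ k, (R k).PairwiseDisjoint id)
    (h3 : ∀ k, ⋃₀ R k = Q k) (s : Set K) (θ : Cardinal.{u}) (hs : #s ≤ θ) (hθ : ℵ₀ ≤ θ)
    (S : Set X) (hSY : S ⊆ Y) (hS : Cv θ S) :
    Cv θ (S ∪ ⋃₀ {P | ∃ k ∈ s, P ∈ R k ∧ (P ∩ S).Nonempty}) := by
  classical
  obtain ⟨ι, C, hι, hC, hU⟩ := id hS
  set PP : Set (Set X) := {P | ∃ k ∈ s, P ∈ R k ∧ (P ∩ S).Nonempty} with hPP
  have hcard : #PP ≤ θ := by
    have hsub : PP ⊆ ⋃ p : s × ι, {P | P ∈ R p.1 ∧ (P ∩ C p.2).Nonempty} := by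
      rintro P ⟨k, hk, hP, z, hzP, hzS⟩
      rw [← hU] at hzS
      obtain ⟨i, hi⟩ := mem_iUnion.1 hzS
      exact mem_iUnion.2 ⟨(⟨k, hk⟩, i), hP, z, hzP, hi⟩
    refine (mk_le_mk_of_subset hsub).trans ?_
    refine (mk_iUnion_le _).trans ?_
    have h4 : #(s × ι) ≤ θ := by
      rw [mk_prod, lift_id, lift_id]
      exact (mul_le_mul' hs hι).trans (mul_eq_self hθ).le
    have h5 : (⨆ p : s × ι, #{P | P ∈ R p.1 ∧ (P ∩ C p.2).Nonempty}) ≤ θ := by
      refine ciSup_le' fun p => ?_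
      have hf := fin845 (hQ p.1) (R p.1) (fun P hP => (h1 p.1 P hP).1) (h2 p.1) (h3 p.1) (C p.2)
        (hC p.2) ((by rw [← hU]; exact subset_iUnion C p.2 : C p.2 ⊆ S).trans hSY)
      exact (hf.lt_aleph0.le).trans hθ
    exact (mul_le_mul' h4 h5).trans (mul_eq_self hθ).le
  have hU2 : S ∪ ⋃₀ PP = ⋃ o : Option PP, (o.elim S (fun P => (P : Set X))) := by
    ext z
    constructor
    · rintro (hz | ⟨P, hP, hz⟩)
      · exact mem_iUnion.2 ⟨none, hz⟩
      · exact mem_iUnion.2 ⟨some ⟨P, hP⟩, hz⟩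
    · intro hz
      obtain ⟨o, ho⟩ := mem_iUnion.1 hz
      rcases o with _ | P
      · exact Or.inl ho
      · exact Or.inr ⟨P.1, P.2, ho⟩
  rw [hU2]
  refine cv_iUnion hθ ?_ ?_
  · rw [mk_option]
    exact add_le_of_le hθ hcard (one_le_aleph0.trans hθ)
  · intro o
    rcases o with _ | P
    · exact hS
    · obtain ⟨k, hk, hP, -⟩ := P.2
      exact cv_mono hθ (h1 k P.1 hP).2

theorem singCase {X : Type u} [TopologicalSpace X] [CompactSpace X] [T2Space X]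
    {κ : Cardinal.{u}} {Y : Set X} (hY : IsOpen Y)
    (K : Type u) [LinearOrder K] [WellFoundedLT K] (hK : #K = κ)
    (hIic : ∀ k : K, #(Iic k) < κ) (hcof : Order.cof K < κ) (hunc : ℵ₀ < κ)
    (Q : K → Set X) (hQ : ∀ k, RC Y (Q k)) (hmono : ∀ j k, j ≤ k → Q j ⊆ Q k)
    (hcov : (⋃ k, Q k) = Y) (hQs : ∀ k, Cv (max (#(Iic k)) ℵ₀) (Q k))
    (IH : ∀ κ' < κ, ∀ Z : Set X, IsOpen Z → Cv κ' Z → Part Z) : Part Y := by
  classical
  obtain ⟨s, hs, hsc⟩ := Order.exists_cof_eq K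
  have hθ : max (#s) ℵ₀ < κ := max_lt (hsc ▸ hcof) hunc
  set θ : Cardinal.{u} := max (#s) ℵ₀ with hθd
  have hθ0 : ℵ₀ ≤ θ := le_max_right _ _
  have hP : ∀ k, Part (Q k) := fun k => IH _ (max_lt (hIic k) hunc) (Q k) (hQ k).1 (hQs k)
  choose R hR1 hR2 hR3 using hP
  let r : X → X → Prop := fun x y => ∃ k ∈ s, ∃ P ∈ R k, x ∈ P ∧ y ∈ P
  have hrsymm : ∀ x y, r x y → r y x := fun x y ⟨k, hk, P, hP, h1, h2⟩ => ⟨k, hk, P, hP, h2, h1⟩
  let A : X → Set X := fun x => {y | Relation.ReflTransGen r x y}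
  have hsym : ∀ x y, Relation.ReflTransGen r x y → Relation.ReflTransGen r y x := by
    intro x y h
    induction h with
    | refl => exact Relation.ReflTransGen.refl
    | tail _ h ih => exact Relation.ReflTransGen.head (hrsymm _ _ h) ih
  have hYr : ∀ x y, r x y → y ∈ Y := by
    rintro x y ⟨k, hk, P, hP, h1, h2⟩
    have : y ∈ ⋃₀ R k := ⟨P, hP, h2⟩
    rw [hR3] at this
    exact (hQ k).2.1 this
  have hAY : ∀ x ∈ Y, A x ⊆ Y := by
    intro x hx y hy
    rcases Relation.ReflTransGen.cases_tail hy with h | ⟨b, _, h⟩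
    · rw [h]; exact hx
    · exact hYr _ _ h
  have hcof' : ∀ y ∈ Y, ∃ k ∈ s, ∃ P ∈ R k, y ∈ P := by
    intro y hy
    rw [← hcov] at hy
    obtain ⟨j, hj⟩ := mem_iUnion.1 hy
    obtain ⟨k, hk, hjk⟩ := hs j
    have : y ∈ ⋃₀ R k := by rw [hR3]; exact hmono j k hjk hj
    obtain ⟨P, hP, hyP⟩ := this
    exact ⟨k, hk, P, hP, hyP⟩
  have hAopen : ∀ x ∈ Y, IsOpen (A x) := by
    intro x hx
    rw [isOpen_iff_mem_nhds]
    intro y hy
    obtain ⟨k, hk, P, hP, hyP⟩ := hcof' y (hAY x hx hy)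
    refine Filter.mem_of_superset ((hR1 k P hP).1.mem_nhds hyP) ?_
    intro z hz
    exact Relation.ReflTransGen.tail hy ⟨k, hk, P, hP, hyP, hz⟩
  have hACv : ∀ x ∈ Y, Cv θ (A x) := by
    intro x hx
    let Φ : Set X → Set X := fun S => S ∪ ⋃₀ {P | ∃ k ∈ s, P ∈ R k ∧ (P ∩ S).Nonempty}
    let E : ℕ → Set X := fun n => Φ^[n] {x}
    have hE : ∀ n, E n ⊆ Y ∧ Cv θ (E n) := by
      intro n
      induction n with
      | zero =>
        refine ⟨singleton_subset_iff.2 hx, PUnit, fun _ => {x}, ?_, fun _ => isCompact_singleton, ?_⟩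
        · rw [mk_punit]; exact one_le_aleph0.trans hθ0
        · show _ = ({x} : Set X)
          simp
      | succ n ih =>
        have e : E (n + 1) = Φ (E n) := Function.iterate_succ_apply' Φ n {x}
        rw [e]
        refine ⟨union_subset ih.1 ?_, step845 Q hQ R hR1 hR2 hR3 s θ (le_max_left _ _) hθ0 (E n) ih.1 ih.2⟩
        rintro z ⟨P, ⟨k, hk, hP, -⟩, hz⟩
        have : z ∈ ⋃₀ R k := ⟨P, hP, hz⟩
        rw [hR3] at this
        exact (hQ k).2.1 this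
    have hAE : A x = ⋃ n : ULift.{u} ℕ, E n.down := by
      apply Set.Subset.antisymm
      · intro y hy
        induction hy with
        | refl => exact mem_iUnion.2 ⟨⟨0⟩, rfl⟩
        | tail _ h ih =>
          obtain ⟨⟨n⟩, hn⟩ := mem_iUnion.1 ih
          obtain ⟨k, hk, P, hP, h1, h2⟩ := h
          refine mem_iUnion.2 ⟨⟨n + 1⟩, ?_⟩
          have e : E (n + 1) = Φ (E n) := Function.iterate_succ_apply' Φ n {x}
          show _ ∈ E (n + 1)
          rw [e]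
          exact Or.inr ⟨P, ⟨k, hk, hP, _, h1, hn⟩, h2⟩
      · refine iUnion_subset ?_
        rintro ⟨n⟩
        show E n ⊆ A x
        induction n with
        | zero =>
          intro z hz
          have hz' : z = x := hz
          rw [hz']
          exact Relation.ReflTransGen.refl
        | succ n ih =>
          have e : E (n + 1) = Φ (E n) := Function.iterate_succ_apply' Φ n {x}
          rw [e]
          rintro z (hz | ⟨P, ⟨k, hk, hP, w, hw1, hw2⟩, hz⟩)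
          · exact ih hz
          · exact Relation.ReflTransGen.tail (ih hw2) ⟨k, hk, P, hP, hw1, hz⟩
    rw [hAE]
    refine cv_iUnion hθ0 ?_ fun n => (hE n.down).2
    rw [mk_uLift, mk_nat]
    simpa using hθ0
  have hAP : ∀ x ∈ Y, Part (A x) := fun x hx => IH θ hθ (A x) (hAopen x hx) (hACv x hx)
  refine part_glue (A '' Y) ?_ ?_ ?_
  · rintro _ ⟨x, hx, rfl⟩
    exact hAP x hx
  · rintro _ ⟨x, hx, rfl⟩ _ ⟨y, hy, rfl⟩ hne
    show Disjoint (A x) (A y)
    rw [Set.disjoint_left]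
    intro z hz1 hz2
    apply hne
    ext w
    constructor
    · intro hw
      exact (Relation.ReflTransGen.trans hz2 (hsym _ _ hz1)).trans hw
    · intro hw
      exact (Relation.ReflTransGen.trans hz1 (hsym _ _ hz2)).trans hw
  · apply Set.Subset.antisymm
    · rintro z ⟨_, ⟨x, hx, rfl⟩, hz⟩
      exact hAY x hx hz
    · intro z hz
      exact ⟨A z, ⟨z, hz, rfl⟩, Relation.ReflTransGen.refl⟩

end Pool.Agent.Helper535.MN
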