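import Pool.Agent.Helper535.MN.Defs
import Pool.Agent.Helper535.MN.P_cv_mono
import Pool.Agent.Helper535.MN.P_chain
import Pool.Agent.Helper535.MN.P_regCase
import Pool.Agent.Helper535.MN.P_singCase

set_option autoImplicit false

open Set Topology Cardinal Filter

namespace Pool.Agent.Helper535.MN

universe u



/-- every open set has a partition into open sigma-compact sets -/
theorem partAll {X : Type u} [TopologicalSpace X] [CompactSpace X] [T2Space X] (hct : CTight X)
    {μ : X → Set X → Set X} (hμ : MNOp X μ) (Y : Set X) (hY : IsOpen Y) : Part Y := by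
  have main : ∀ κ : Cardinal.{u}, ∀ Z : Set X, IsOpen Z → Cv κ Z → Part Z := by
    intro κ
    induction κ using WellFoundedLT.induction with
    | ind κ IH =>
      intro Z hZ hcv
      by_cases hκ : κ ≤ ℵ₀
      · refine ⟨{Z}, ?_, ?_, ?_⟩
        · intro P hP
          rw [mem_singleton_iff] at hP
          subst hP
          exact ⟨hZ, cv_mono hκ hcv⟩
        · exact pairwiseDisjoint_singleton _ _
        · simp
      · have hunc : ℵ₀ < κ := not_le.1 hκ
        obtain ⟨ι, C, hι, hC, hCZ⟩ := hcv
        have hK : #κ.ord.ToType = κ := by simp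
        obtain ⟨e⟩ : Nonempty (ι ↪ κ.ord.ToType) := by
          rw [← Cardinal.le_def, hK]
          exact hι
        have hC' : ∀ k : κ.ord.ToType, IsCompact (⋃ i ∈ {i | e i = k}, C i) := by
          intro k
          refine Set.Finite.isCompact_biUnion ?_ (fun i _ => hC i)
          apply Set.Subsingleton.finite
          intro i hi j hj
          exact e.injective (hi.trans hj.symm)
        have hcov : (⋃ k, ⋃ i ∈ {i | e i = k}, C i) = Z := by
          rw [← hCZ]
          ext x
          simp
        obtain ⟨Q, hQ, hmono, hQcov, hQs⟩ :=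
          chain hct hμ hZ κ.ord.ToType (fun k => ⋃ i ∈ {i | e i = k}, C i) hC' hcov
        have hIic : ∀ k : κ.ord.ToType, #(Iic k) < κ := by
          intro k
          have h1 : #(Iio k) < κ := Cardinal.mk_Iio_toType_ord_lt k
          have h2 : #(Iic k) ≤ #(Iio k) + 1 := by
            rw [← Iio_insert]
            exact Cardinal.mk_insert_le
          exact h2.trans_lt (Cardinal.add_lt_of_lt hunc.le h1 (Cardinal.one_lt_aleph0.trans hunc))
        have hcofle : Order.cof κ.ord.ToType ≤ κ := by
          rw [Ordinal.cof_toType]
          exact Ordinal.cof_ord_le κ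
        rcases hcofle.eq_or_lt with h | h
        · exact regCase hct hμ hZ κ.ord.ToType hK hIic h hunc Q hQ hmono hQcov hQs
            (fun κ' h' => IH κ' h')
        · exact singCase hZ κ.ord.ToType hK hIic h hunc Q hQ hmono hQcov hQs
            (fun κ' h' => IH κ' h')
  exact main #Y Y hY ⟨Y, fun y => {(y : X)}, le_rfl, fun _ => isCompact_singleton, by ext; simp⟩

end Pool.Agent.Helper535.MN
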